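import Pool.Agent.W_MP_3ab0ed_h30.OneStep
import Pool.Agent.W_MP_3ab0ed_h44.IterCls

/-!
MP_3ab0ed_al.  The class `CC` (nonempty space and `Cls`) is invariant under isomorphisms of groups
and contains the action of a free group on itself; from the one-step theorem to the answer.
-/

namespace Burn

theorem isoInv_cc (n B q : ℕ) : IsoInv (CC n B q) := by
  intro G G' V _ _ _ M e H
  exact ⟨H.1, isoInv_cls n (Cone.dX : ℤ) (B : ℤ) (q : ℤ) G G' V M e H.2⟩

theorem initOut_cc (n B q : ℕ) (hn : n ≠ 0) (hB : 20000 * Cone.dX + 20 ≤ B) (hq : 1 ≤ q)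
    (κ : Type) : InitOut (CC n B q) κ := by
  classical
  have hδ : 1 ≤ Cone.dX := Cone.one_le_dX
  refine ⟨FreeGroup κ, inferInstance, Init.wordMet κ, 1, fun f => f.norm,
    ⟨⟨1⟩, (Init.init κ n (by exact_mod_cast hδ) (by exact_mod_cast hB)
      (by exact_mod_cast hq)).toCls hn (by exact_mod_cast hδ) (by exact_mod_cast hq)⟩, ?_⟩
  intro f
  rw [Init.wordMet_d, Init.wd, inv_one, one_mul, smul_eq_mul, mul_one]

/-- The answer from the one-step theorem. -/
theorem answer_of_cc {p B q : ℕ} [hp : Fact p.Prime] (hodd : p ≠ 2)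
    (hB : 20000 * Cone.dX + 20 ≤ B) (hq : 1 ≤ q)
    (hstep : ∀ (G V : Type) [Group G] [MulAction G V] (M : IMet V), CC p B q G V M →
      StepOut p (CC p B q) G V M) : W3ab0ed.Laws.Answer :=
  answer_of_oneStep hodd (isoInv_cc p B q) (initOut_cc p B q hp.out.ne_zero hB hq) hstep

end Burn
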