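import Pool.Agent.W_MP_3ab0ed_h44.Grad

/-!
Homology part of MP_3ab0ed_al.  The standard basis of the exterior algebra indexed by finite
subsets, and the operators on it.
-/

namespace W3ab0ed.TF

open Finsupp Module

variable {X : Type}

/-- The standard basis of the exterior algebra. -/
noncomputable def eb (X : Type) [LinearOrder X] : Basis (Finset X) ℤ (Lam X) :=
  Module.Basis.ExteriorAlgebra (R := ℤ) (M := X →₀ ℤ) (Finsupp.basisSingleOne (R := ℤ) (ι := X))

section

variable [LinearOrder X]

theorem eb_empty : eb X ∅ = 1 := by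
  unfold eb
  rw [ExteriorAlgebra.basis_apply_ofCard _ (Finset.card_empty (α := X))]
  simp [ExteriorAlgebra.ιMulti_family]

theorem eb_singleton (x : X) :
    eb X {x} = ExteriorAlgebra.ι ℤ (Finsupp.single x (1 : ℤ)) := by
  unfold eb
  rw [ExteriorAlgebra.basis_apply_ofCard _ (Finset.card_singleton x)]
  obtain ⟨i, hi⟩ := (Set.powersetCard.mem_range_ofFinEmbEquiv_symm_iff_mem
    (Set.powersetCard.ofCard (Finset.card_singleton x)) x).2 (by
      change x ∈ ({x} : Finset X)
      simp)
  have h0 : i = 0 := Subsingleton.elim _ _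
  subst h0
  simp [ExteriorAlgebra.ιMulti_family, hi]

theorem eb_mul_of_disjoint {s t : Finset X} (h : Disjoint s t) :
    eb X s * eb X t = eb X (s ∪ t) ∨ eb X s * eb X t = - eb X (s ∪ t) := by
  have h' : Disjoint (Set.powersetCard.ofCard (rfl : s.card = s.card)).val
    (Set.powersetCard.ofCard (rfl : t.card = t.card)).val := h
  have h1 := ExteriorAlgebra.basis_mul_of_disjoint (R := ℤ)
    (Finsupp.basisSingleOne (R := ℤ) (ι := X))
    (Set.powersetCard.ofCard (rfl : s.card = s.card))
    (Set.powersetCard.ofCard (rfl : t.card = t.card)) h'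
  have h2 : (↑(Set.powersetCard.disjUnion h') : Finset X) = s ∪ t := by
    rw [Set.powersetCard.coe_disjUnion]
    exact Finset.disjUnion_eq_union s t h
  rw [h2] at h1
  rcases Int.units_eq_one_or (Set.powersetCard.permOfDisjoint h').sign with h3 | h3
  · left
    rw [h3, one_smul] at h1
    exact h1
  · right
    rw [h3] at h1
    refine h1.trans ?_
    simp [eb]

theorem eb_mul_of_not_disjoint {s t : Finset X} (h : ¬ Disjoint s t) :
    eb X s * eb X t = 0 :=
  ExteriorAlgebra.basis_mul_of_not_disjoint (R := ℤ)
    (Finsupp.basisSingleOne (R := ℤ) (ι := X))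
    (Set.powersetCard.ofCard (rfl : s.card = s.card))
    (Set.powersetCard.ofCard (rfl : t.card = t.card)) h

theorem ew_eb_of_mem {x : X} {s : Finset X} (h : x ∈ s) : ew x (eb X s) = 0 := by
  rw [ew_apply, ← eb_singleton]
  apply eb_mul_of_not_disjoint
  simpa using h

theorem ew_eb_of_notMem {x : X} {s : Finset X} (h : x ∉ s) :
    ew x (eb X s) = eb X (insert x s) ∨ ew x (eb X s) = - eb X (insert x s) := by
  rw [ew_apply, ← eb_singleton, Finset.insert_eq]
  apply eb_mul_of_disjoint
  simpa using h

theorem eb_insert {x : X} {s : Finset X} (h : x ∉ s) :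
    eb X (insert x s) = ew x (eb X s) ∨ eb X (insert x s) = - ew x (eb X s) := by
  rcases ew_eb_of_notMem h with h1 | h1
  · left; rw [h1]
  · right; rw [h1, neg_neg]

theorem actL_eb {σ : X → X} (hσ : Function.Injective σ) (s : Finset X) :
    actL σ (eb X s) = eb X (s.image σ) ∨ actL σ (eb X s) = - eb X (s.image σ) := by
  induction s using Finset.induction_on with
  | empty => left; rw [Finset.image_empty, eb_empty, actL_one]
  | insert x s hx ih =>
    have hx' : σ x ∉ s.image σ := by
      intro h
      obtain ⟨y, hy, hyx⟩ := Finset.mem_image.1 h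
      exact hx (hσ hyx ▸ hy)
    have key : actL σ (ew x (eb X s)) = eb X ((insert x s).image σ) ∨
        actL σ (ew x (eb X s)) = - eb X ((insert x s).image σ) := by
      rw [actL_ew, Finset.image_insert]
      rcases ih with h | h <;> rw [h]
      · exact ew_eb_of_notMem hx'
      · rw [map_neg]
        rcases ew_eb_of_notMem hx' with h1 | h1 <;> rw [h1]
        · right; rfl
        · left; rw [neg_neg]
    rcases eb_insert hx with h | h <;> rw [h]
    · exact key
    · rw [map_neg]
      rcases key with h1 | h1 <;> rw [h1]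
      · right; rfl
      · left; rw [neg_neg]

theorem ic_eb_of_notMem {x : X} {s : Finset X} (h : x ∉ s) : ic x (eb X s) = 0 := by
  induction s using Finset.induction_on with
  | empty => rw [eb_empty, ic_one]
  | insert y s hy ih =>
    rw [Finset.mem_insert, not_or] at h
    have key : ic x (ew y (eb X s)) = 0 := by
      rw [ic_ew, if_neg h.1, ih h.2, map_zero, sub_zero]
    rcases eb_insert hy with h1 | h1 <;> rw [h1]
    · exact key
    · rw [map_neg, key, neg_zero]

theorem eb_mem_grN (s : Finset X) : eb X s ∈ grN X s.card := by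
  induction s using Finset.induction_on with
  | empty => rw [eb_empty, Finset.card_empty]; exact mem_grN_zero.2 ⟨1, by simp⟩
  | insert x s hx ih =>
    rw [Finset.card_insert_of_notMem hx]
    rcases eb_insert hx with h1 | h1 <;> rw [h1]
    · exact ew_mem_grN x ih
    · exact Submodule.neg_mem _ (ew_mem_grN x ih)

theorem repr_ew (x : X) (v : Lam X) (s : Finset X) (hs : x ∉ s) : 
    (eb X).repr (ew x v) s = 0 := by
  have h : ∀ t, (eb X).repr (ew x (eb X t)) s = 0 := by
    intro t
    by_cases ht : x ∈ t
    · rw [ew_eb_of_mem ht, map_zero, Finsupp.zero_apply]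
    · have hne : insert x t ≠ s := fun e => hs (e ▸ Finset.mem_insert_self x t)
      rcases ew_eb_of_notMem ht with h1 | h1 <;> rw [h1]
      · rw [Basis.repr_self, Finsupp.single_eq_of_ne (Ne.symm hne)]
      · rw [map_neg, Basis.repr_self, Finsupp.neg_apply, Finsupp.single_eq_of_ne (Ne.symm hne),
          neg_zero]
  have h2 : ((Finsupp.lapply s ∘ₗ (eb X).repr.toLinearMap ∘ₗ ew x : Lam X →ₗ[ℤ] ℤ)) = 0 := by
    refine (eb X).ext fun t => ?_
    exact h t
  exact LinearMap.congr_fun h2 v

end

end W3ab0ed.TF
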