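import Pool.Agent.W_MP_3ab0ed_h30.EBasis
import Pool.Agent.W_MP_3ab0ed_h44.Dat

/-!
Homology part of MP_3ab0ed_al.  A basis of the exterior algebra, indexed by finite subsets, that
is permuted by the free group (its elements act with odd exponent).
-/

namespace W3ab0ed.TF

open Finsupp Module
open scoped Pointwise

variable {X κ : Type} [LinearOrder X] [MulAction (FreeGroup κ) X]

theorem bR_eb (g : FreeGroup κ) (s : Finset X) :
    bR g (eb X s) = eb X (g⁻¹ • s) ∨ bR g (eb X s) = - eb X (g⁻¹ • s) :=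
  actL_eb (MulAction.injective g⁻¹) s

theorem eb_ne_neg (s : Finset X) : eb X s ≠ - eb X s := by
  intro h
  have h1 := congrArg (fun v => (eb X).repr v s) h
  simp only [map_neg, Basis.repr_self, Finsupp.neg_apply, Finsupp.single_eq_same] at h1
  omega

theorem bR_eb_stab {p : ℕ} (hp : Odd p) {g : FreeGroup κ} (hact : ∀ x : X, (g ^ p) • x = x)
    {s : Finset X} (hg : g • s = s) : bR g (eb X s) = eb X s := by
  have hg' : g⁻¹ • s = s := by rw [inv_smul_eq_iff, hg]
  rcases bR_eb g s with h | h
  · rw [h, hg']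
  · exfalso
    rw [hg'] at h
    have h1 : ∀ n : ℕ, bR (g ^ n) (eb X s) = (-1 : ℤ) ^ n • eb X s := by
      intro n
      induction n with
      | zero => rw [pow_zero, bR_one, pow_zero, one_smul]
      | succ n ih =>
        rw [pow_succ, bR_mul, ih, map_smul, h, smul_neg, pow_succ, mul_neg_one, neg_smul]
    have h2 := h1 p
    rw [bR_triv hact, hp.neg_one_pow, neg_smul, one_smul] at h2
    exact eb_ne_neg s h2

/-- A representative of the orbit. -/
noncomputable def rep (κ : Type) {X : Type} [LinearOrder X] [MulAction (FreeGroup κ) X]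
    (s : Finset X) : Finset X :=
  (Quotient.mk (MulAction.orbitRel (FreeGroup κ) (Finset X)) s).out

theorem exists_rep (s : Finset X) : ∃ g : FreeGroup κ, g⁻¹ • rep κ s = s := by
  have h : (MulAction.orbitRel (FreeGroup κ) (Finset X)).r (rep κ s) s := by
    apply Quotient.exact (s := MulAction.orbitRel (FreeGroup κ) (Finset X))
    exact Quotient.out_eq _
  obtain ⟨g, hg⟩ := h
  refine ⟨g, ?_⟩
  rw [inv_smul_eq_iff]
  exact hg.symm

theorem rep_smul (g : FreeGroup κ) (s : Finset X) : rep κ (g • s) = rep κ s := by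
  unfold rep
  congr 1
  apply Quotient.sound (s := MulAction.orbitRel (FreeGroup κ) (Finset X))
  exact ⟨g, rfl⟩

/-- The group element. -/
noncomputable def gam (κ : Type) {X : Type} [LinearOrder X] [MulAction (FreeGroup κ) X]
    (s : Finset X) : FreeGroup κ :=
  (exists_rep (κ := κ) s).choose

theorem gam_spec (s : Finset X) : (gam κ s)⁻¹ • rep κ s = s :=
  (exists_rep (κ := κ) s).choose_spec

/-- The permuted basis, as a function. -/
noncomputable def fv (κ : Type) {X : Type} [LinearOrder X] [MulAction (FreeGroup κ) X]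
    (s : Finset X) : Lam X :=
  bR (gam κ s) (eb X (rep κ s))

theorem fv_eq (s : Finset X) : fv κ s = eb X s ∨ fv κ s = - eb X s := by
  have h := bR_eb (gam κ s) (rep κ s)
  rw [gam_spec] at h
  exact h

/-- The sign. -/
noncomputable def sg (κ : Type) {X : Type} [LinearOrder X] [MulAction (FreeGroup κ) X]
    (s : Finset X) : ℤˣ := by
  classical
  exact if fv κ s = eb X s then 1 else -1

theorem fv_eq_sg (s : Finset X) : fv κ s = sg κ s • eb X s := by
  unfold sg
  split_ifs with h
  · rw [h, one_smul]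
  · have := (fv_eq (κ := κ) s).resolve_left h
    rw [this]
    simp

/-- The permuted basis. -/
noncomputable def fb (κ X : Type) [LinearOrder X] [MulAction (FreeGroup κ) X] :
    Basis (Finset X) ℤ (Lam X) :=
  (eb X).unitsSMul (sg κ)

theorem fb_eq_fv (s : Finset X) : fb κ X s = fv κ s := by
  rw [fv_eq_sg]
  exact Basis.unitsSMul_apply s

theorem fb_eq (s : Finset X) : fb κ X s = eb X s ∨ fb κ X s = - eb X s := by
  rw [fb_eq_fv]; exact fv_eq s

/-- The group permutes the basis. -/
theorem bR_fb {p : ℕ} (hp : Odd p) (hact : ∀ (g : FreeGroup κ) (x : X), (g ^ p) • x = x)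
    (g : FreeGroup κ) (s : Finset X) : bR g (fb κ X s) = fb κ X (g⁻¹ • s) := by
  rw [fb_eq_fv, fb_eq_fv]
  unfold fv
  rw [← bR_mul, rep_smul]
  set γ' := gam κ (g⁻¹ • s) with hγ'
  have h1 : γ'⁻¹ • rep κ s = g⁻¹ • s := by
    have := gam_spec (κ := κ) (g⁻¹ • s)
    rw [rep_smul] at this
    exact this
  have h2 : gam κ s * g = (gam κ s * g * γ'⁻¹) * γ' := by group
  have h3 : (gam κ s * g * γ'⁻¹) • rep κ s = rep κ s := by
    rw [mul_smul, h1, mul_smul, smul_inv_smul]
    exact (inv_smul_eq_iff.1 (gam_spec (κ := κ) s)).symm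
  rw [h2, bR_mul, bR_eb_stab hp (hact _) h3]

theorem ew_fb_of_mem {x : X} {s : Finset X} (h : x ∈ s) : ew x (fb κ X s) = 0 := by
  rcases fb_eq (κ := κ) s with h1 | h1 <;> rw [h1]
  · exact ew_eb_of_mem h
  · rw [map_neg, ew_eb_of_mem h, neg_zero]

theorem ew_fb_of_notMem {x : X} {s : Finset X} (h : x ∉ s) :
    ew x (fb κ X s) = fb κ X (insert x s) ∨ ew x (fb κ X s) = - fb κ X (insert x s) := by
  have key : ew x (eb X s) = fb κ X (insert x s) ∨ ew x (eb X s) = - fb κ X (insert x s) := by
    rcases ew_eb_of_notMem h with h1 | h1 <;> rcases fb_eq (κ := κ) (insert x s) with h2 | h2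
    · left; rw [h1, h2]
    · right; rw [h1, h2, neg_neg]
    · right; rw [h1, h2]
    · left; rw [h1, h2]
  rcases fb_eq (κ := κ) s with h1 | h1 <;> rw [h1]
  · exact key
  · rw [map_neg]
    rcases key with h2 | h2 <;> rw [h2]
    · right; rfl
    · left; rw [neg_neg]

/-- The incidence sign. -/
noncomputable def eta (κ : Type) {X : Type} [LinearOrder X] [MulAction (FreeGroup κ) X]
    (x : X) (s : Finset X) : ℤ :=
  (fb κ X).repr (ew x (fb κ X s)) (insert x s)

theorem ew_fb {x : X} {s : Finset X} (h : x ∉ s) :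
    ew x (fb κ X s) = eta κ x s • fb κ X (insert x s) := by
  unfold eta
  rcases ew_fb_of_notMem (κ := κ) h with h1 | h1
  · rw [h1, Basis.repr_self, Finsupp.single_eq_same, one_smul]
  · rw [h1, map_neg, Basis.repr_self, Finsupp.neg_apply, Finsupp.single_eq_same, neg_smul,
      one_smul]

theorem eta_eq {x : X} {s : Finset X} (h : x ∉ s) : eta κ x s = 1 ∨ eta κ x s = -1 := by
  unfold eta
  rcases ew_fb_of_notMem (κ := κ) h with h1 | h1
  · left; rw [h1, Basis.repr_self, Finsupp.single_eq_same]
  · right; rw [h1, map_neg, Basis.repr_self, Finsupp.neg_apply, Finsupp.single_eq_same]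

theorem smul_insert (g : FreeGroup κ) (x : X) (s : Finset X) :
    g • insert x s = insert (g • x) (g • s) := by
  rw [Finset.insert_eq, Finset.smul_finset_union, Finset.insert_eq, Finset.smul_finset_singleton]

theorem eta_smul {p : ℕ} (hp : Odd p) (hact : ∀ (g : FreeGroup κ) (x : X), (g ^ p) • x = x)
    (g : FreeGroup κ) {x : X} {s : Finset X} (h : x ∉ s) :
    eta κ (g • x) (g • s) = eta κ x s := by
  have h' : g • x ∉ g • s := by rwa [Finset.smul_mem_smul_finset_iff]
  have h1 : bR g⁻¹ (ew x (fb κ X s)) = ew (g • x) (fb κ X (g • s)) := by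
    rw [bR_ew, bR_fb hp hact, inv_inv]
  rw [ew_fb h, ew_fb h', map_smul, bR_fb hp hact, inv_inv, smul_insert] at h1
  have h2 := congrArg (fun v => (fb κ X).repr v (insert (g • x) (g • s))) h1
  simp only [map_smul, Basis.repr_self, Finsupp.smul_apply, Finsupp.single_eq_same, smul_eq_mul,
    mul_one] at h2
  exact h2.symm

end W3ab0ed.TF
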