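import Pool.Agent.W_MP_3ab0ed_h30.FBasis

/-!
Homology part of MP_3ab0ed_al.  The grading and the contraction in terms of the permuted basis;
coinvariants of the free group are torsion free.
-/

namespace W3ab0ed.TF

open Finsupp Module
open scoped Pointwise

variable {X κ : Type} [LinearOrder X] [MulAction (FreeGroup κ) X]

theorem fb_mem_grN (s : Finset X) : fb κ X s ∈ grN X s.card := by
  rcases fb_eq (κ := κ) s with h | h <;> rw [h]
  · exact eb_mem_grN s
  · exact Submodule.neg_mem _ (eb_mem_grN s)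

theorem grN_le (n : ℕ) : grN X n ≤ Submodule.span ℤ (fb κ X '' {s | s.card = n}) := by
  induction n with
  | zero =>
    change Submodule.span ℤ {(1 : Lam X)} ≤ _
    rw [Submodule.span_singleton_le_iff_mem, ← eb_empty]
    have h1 : fb κ X ∅ ∈ Submodule.span ℤ (fb κ X '' {s | s.card = 0}) :=
      Submodule.subset_span ⟨∅, by simp, rfl⟩
    rcases fb_eq (κ := κ) (X := X) ∅ with h | h
    · rwa [h] at h1
    · rw [h] at h1
      exact (Submodule.neg_mem_iff _).1 h1
  | succ n ih =>
    change Submodule.span ℤ {b | ∃ x a, a ∈ grN X n ∧ b = ew x a} ≤ _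
    rw [Submodule.span_le]
    rintro b ⟨x, a, ha, rfl⟩
    have h1 : Submodule.span ℤ (fb κ X '' {s | s.card = n}) ≤
        (Submodule.span ℤ (fb κ X '' {s | s.card = n + 1})).comap (ew x) := by
      rw [Submodule.span_le]
      rintro _ ⟨s, hs, rfl⟩
      change ew x (fb κ X s) ∈ Submodule.span ℤ (fb κ X '' {s | s.card = n + 1})
      by_cases hx : x ∈ s
      · rw [ew_fb_of_mem hx]; exact Submodule.zero_mem _
      · rw [ew_fb hx]
        refine Submodule.smul_mem _ _ (Submodule.subset_span ⟨insert x s, ?_, rfl⟩)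
        change (insert x s).card = n + 1
        rw [Finset.card_insert_of_notMem hx, hs]
    exact h1 (ih ha)

theorem mem_grN_iff {n : ℕ} {v : Lam X} :
    v ∈ grN X n ↔ ∀ s, (fb κ X).repr v s ≠ 0 → s.card = n := by
  constructor
  · intro h s hs
    have h1 := (Basis.mem_span_image (fb κ X)).1 (grN_le (κ := κ) n h)
    exact h1 (Finsupp.mem_support_iff.2 hs)
  · intro h
    rw [← (fb κ X).linearCombination_repr v, Finsupp.linearCombination_apply, Finsupp.sum]
    refine Submodule.sum_mem _ fun s hs => Submodule.smul_mem _ _ ?_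
    rw [← h s (Finsupp.mem_support_iff.1 hs)]
    exact fb_mem_grN s

theorem mem_gr_iff (κ : Type) {X : Type} [LinearOrder X] [MulAction (FreeGroup κ) X]
    {n : ℤ} {v : Lam X} :
    v ∈ gr X n ↔ ∀ s, (fb κ X).repr v s ≠ 0 → (s.card : ℤ) = n := by
  rcases lt_or_ge n 0 with hn | hn
  · rw [gr_neg hn, Submodule.mem_bot]
    constructor
    · rintro rfl s hs
      simp at hs
    · intro h
      have h1 : (fb κ X).repr v = 0 := by
        ext s
        by_contra hs
        have := h s hs
        omega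
      exact (LinearEquiv.map_eq_zero_iff _).1 h1
  · obtain ⟨m, rfl⟩ := Int.eq_ofNat_of_zero_le hn
    rw [gr_nat, mem_grN_iff (κ := κ)]
    constructor
    · intro h s hs; exact_mod_cast h s hs
    · intro h s hs; exact_mod_cast h s hs

theorem fb_mem_gr (s : Finset X) : fb κ X s ∈ gr X s.card := by
  rw [gr_nat]; exact fb_mem_grN s

theorem ic_fb_of_notMem {x : X} {s : Finset X} (h : x ∉ s) : ic x (fb κ X s) = 0 := by
  rcases fb_eq (κ := κ) s with h1 | h1 <;> rw [h1]
  · exact ic_eb_of_notMem h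
  · rw [map_neg, ic_eb_of_notMem h, neg_zero]

theorem repr_ic (x : X) (v : Lam X) {s : Finset X} (hs : x ∈ s) :
    (fb κ X).repr (ic x v) s = 0 := by
  have h : ∀ t, (fb κ X).repr (ic x (fb κ X t)) s = 0 := by
    intro t
    by_cases ht : x ∈ t
    · have hx : x ∉ t.erase x := Finset.notMem_erase x t
      have h1 : ic x (ew x (fb κ X (t.erase x))) = fb κ X (t.erase x) := by
        rw [ic_ew, if_pos rfl, ic_fb_of_notMem hx, map_zero, sub_zero]
      have h2 := ew_fb (κ := κ) hx
      rw [Finset.insert_erase ht] at h2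
      rw [h2, map_smul] at h1
      have hne : t.erase x ≠ s := fun e => hx (e ▸ hs)
      rcases eta_eq (κ := κ) hx with h3 | h3
      · rw [h3, one_smul] at h1
        rw [h1, Basis.repr_self, Finsupp.single_eq_of_ne (Ne.symm hne)]
      · rw [h3, neg_smul, one_smul, neg_eq_iff_eq_neg] at h1
        rw [h1, map_neg, Basis.repr_self, Finsupp.neg_apply,
          Finsupp.single_eq_of_ne (Ne.symm hne), neg_zero]
    · rw [ic_fb_of_notMem ht, map_zero, Finsupp.zero_apply]
  have h2 : ((Finsupp.lapply s ∘ₗ (fb κ X).repr.toLinearMap ∘ₗ ic x : Lam X →ₗ[ℤ] ℤ)) = 0 := by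
    refine (fb κ X).ext fun t => ?_
    exact h t
  exact LinearMap.congr_fun h2 v

theorem mem_ker_ic_iff (κ : Type) {X : Type} [LinearOrder X] [MulAction (FreeGroup κ) X]
    {x : X} {v : Lam X} :
    v ∈ LinearMap.ker (ic x) ↔ ∀ s, (fb κ X).repr v s ≠ 0 → x ∉ s := by
  constructor
  · intro h s hs hx
    rw [LinearMap.mem_ker] at h
    have h1 := ic_ew x x v
    rw [if_pos rfl, h, map_zero, sub_zero] at h1
    apply hs
    rw [← h1]
    exact repr_ic x _ hx
  · intro h
    rw [← (fb κ X).linearCombination_repr v, Finsupp.linearCombination_apply, Finsupp.sum]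
    refine Submodule.sum_mem _ fun s hs => Submodule.smul_mem _ _ ?_
    rw [LinearMap.mem_ker]
    exact ic_fb_of_notMem (h s (Finsupp.mem_support_iff.1 hs))

/-- The coordinates of a translate. -/
theorem repr_bR {p : ℕ} (hp : Odd p) (hact : ∀ (g : FreeGroup κ) (x : X), (g ^ p) • x = x)
    (g : FreeGroup κ) (v : Lam X) (s : Finset X) :
    (fb κ X).repr (bR g v) s = (fb κ X).repr v (g • s) := by
  have h2 : ((Finsupp.lapply s ∘ₗ (fb κ X).repr.toLinearMap ∘ₗ bR g : Lam X →ₗ[ℤ] ℤ)) =
      Finsupp.lapply (g • s) ∘ₗ (fb κ X).repr.toLinearMap := by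
    refine (fb κ X).ext fun t => ?_
    change (fb κ X).repr (bR g (fb κ X t)) s = (fb κ X).repr (fb κ X t) (g • s)
    rw [bR_fb hp hact, Basis.repr_self, Basis.repr_self]
    by_cases h : t = g • s
    · subst h
      rw [inv_smul_smul, Finsupp.single_eq_same, Finsupp.single_eq_same]
    · rw [Finsupp.single_eq_of_ne, Finsupp.single_eq_of_ne (Ne.symm h)]
      intro e
      exact h (inv_smul_eq_iff.1 e.symm)
  exact LinearMap.congr_fun h2 v

/-- The sum of the coordinates over an orbit. -/
noncomputable def orbSum (κ : Type) {X : Type} [LinearOrder X] [MulAction (FreeGroup κ) X] :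
    Lam X →ₗ[ℤ] (Finset X →₀ ℤ) :=
  Finsupp.lmapDomain ℤ ℤ (rep κ) ∘ₗ (fb κ X).repr.toLinearMap

theorem orbSum_fb (s : Finset X) : orbSum κ (fb κ X s) = Finsupp.single (rep κ s) 1 := by
  simp [orbSum]

theorem orbSum_bR {p : ℕ} (hp : Odd p) (hact : ∀ (g : FreeGroup κ) (x : X), (g ^ p) • x = x)
    (g : FreeGroup κ) (v : Lam X) : orbSum κ (bR g v) = orbSum κ v := by
  have h2 : orbSum κ ∘ₗ bR g = orbSum κ (X := X) := by
    refine (fb κ X).ext fun t => ?_
    change orbSum κ (bR g (fb κ X t)) = orbSum κ (fb κ X t)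
    rw [bR_fb hp hact, orbSum_fb, orbSum_fb, rep_smul]
  exact LinearMap.congr_fun h2 v

theorem orbSum_del {p : ℕ} (hp : Odd p) (hact : ∀ (g : FreeGroup κ) (x : X), (g ^ p) • x = x)
    (u : κ →₀ Lam X) : orbSum κ (del bR u) = 0 := by
  induction u using Finsupp.induction_linear with
  | zero => simp
  | add u v hu hv => rw [map_add, map_add, hu, hv, add_zero]
  | single s a => rw [del_single, map_sub, orbSum_bR hp hact, sub_self]

theorem card_rep (s : Finset X) : (rep κ s).card = s.card := by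
  conv_rhs => rw [← gam_spec (κ := κ) s]
  rw [Finset.card_smul_finset]

theorem exists_del_of_orbSum {p : ℕ} (hp : Odd p)
    (hact : ∀ (g : FreeGroup κ) (x : X), (g ^ p) • x = x) {n : ℤ} {v : Lam X}
    (hv : v ∈ gr X n) (h : orbSum κ v = 0) :
    ∃ u : κ →₀ Lam X, (∀ s, u s ∈ gr X n) ∧ del bR u = v := by
  let u : κ →₀ Lam X := ((fb κ X).repr v).sum fun s c =>
    c • PP bR (gam κ s) (fb κ X (rep κ s))
  refine ⟨u, ?_, ?_⟩
  · intro k
    change ((((fb κ X).repr v).support.sum fun s =>
      (fb κ X).repr v s • PP bR (gam κ s) (fb κ X (rep κ s))) : κ →₀ Lam X) k ∈ _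
    rw [Finsupp.finsetSum_apply]
    refine Submodule.sum_mem _ fun s hs => ?_
    rw [Finsupp.smul_apply]
    refine Submodule.smul_mem _ _ (PP_mem (fun f x hx => bR_mem f hx) ?_ _ _)
    rw [← (mem_gr_iff κ).1 hv s (Finsupp.mem_support_iff.1 hs), ← card_rep (κ := κ) s]
    exact fb_mem_gr _
  · have h1 : del bR u = ((fb κ X).repr v).sum fun s c => c • (fb κ X s - fb κ X (rep κ s)) := by
      rw [map_finsuppSum]
      refine Finsupp.sum_congr fun s _ => ?_
      rw [map_smul, del_PP bR bR_one bR_mul, bR_fb hp hact, gam_spec]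
    have h2 : (((fb κ X).repr v).sum fun s c => c • fb κ X (rep κ s)) = 0 := by
      have h3 := congrArg (Finsupp.linearCombination ℤ (fb κ X)) h
      rw [map_zero] at h3
      rw [← h3]
      unfold orbSum
      rw [LinearMap.comp_apply, LinearEquiv.coe_coe]
      rw [Finsupp.lmapDomain_apply, Finsupp.linearCombination_mapDomain,
        Finsupp.linearCombination_apply]
      rfl
    rw [h1]
    simp only [smul_sub]
    rw [Finsupp.sum_sub, h2, sub_zero]
    rw [← Finsupp.linearCombination_apply, (fb κ X).linearCombination_repr]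

theorem del_torsion {p : ℕ} (hp : Odd p)
    (hact : ∀ (g : FreeGroup κ) (x : X), (g ^ p) • x = x) {n : ℤ} {v : Lam X}
    (hv : v ∈ gr X n) {q : ℤ} (hq : q ≠ 0) (u : κ →₀ Lam X) (h : del bR u = q • v) :
    ∃ u' : κ →₀ Lam X, (∀ s, u' s ∈ gr X n) ∧ del bR u' = v := by
  apply exists_del_of_orbSum hp hact hv
  have h1 := orbSum_del hp hact u
  rw [h, map_smul] at h1
  ext s
  have h2 := congrArg (fun f : Finset X →₀ ℤ => f s) h1
  simp only [Finsupp.smul_apply, Finsupp.zero_apply, smul_eq_mul] at h2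
  rcases mul_eq_zero.1 h2 with h3 | h3
  · exact absurd h3 hq
  · exact h3

end W3ab0ed.TF
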