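import Mathlib

/-!
Homology part of MP_3ab0ed_al: an explicit resolution by modules of finitely supported functions
on the group computes Mathlib group homology.
-/

open CategoryTheory

namespace W3ab0ed.Lnk

universe u

section Rep

variable {k G : Type u} [CommRing k] [Group G]

/-- The module of finitely supported functions on the group, by left translation. -/
noncomputable def lrep (k G : Type u) [CommRing k] [Group G] (V : Type u) [AddCommGroup V]
    [Module k V] : Representation k G (G →₀ V) where
  toFun h := Finsupp.lmapDomain V k (h * ·)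
  map_one' := by
    ext g v : 2
    simp
  map_mul' a b := by
    ext g v : 2
    simp [mul_assoc]

variable {V W : Type u} [AddCommGroup V] [Module k V] [AddCommGroup W] [Module k W]

@[simp] theorem lrep_single (h g : G) (v : V) :
    lrep k G V h (Finsupp.single g v) = Finsupp.single (h * g) v := by
  simp [lrep]

theorem lrep_apply (h : G) (z : G →₀ V) : lrep k G V h z = Finsupp.mapDomain (h * ·) z := rfl

/-- The Rep object. -/
noncomputable abbrev lRep (k G : Type u) [CommRing k] [Group G] (V : Type u) [AddCommGroup V]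
    [Module k V] : Rep.{u} k G := Rep.of (lrep k G V)

instance lRep_projective [Module.Projective k V] : Projective (lRep k G V) where
  factors := by
    intro E X f e he
    have hs : Function.Surjective e.hom := (Rep.epi_iff_surjective e).1 he
    obtain ⟨l, hl⟩ := Module.projective_lifting_property e.hom.toLinearMap
      (f.hom.toLinearMap ∘ₗ Finsupp.lsingle 1) hs
    have hl' : ∀ v : V, e.hom (l v) = f.hom (Finsupp.single 1 v) := fun v =>
      LinearMap.congr_fun hl v
    refine ⟨Rep.ofHom ⟨Finsupp.lsum k (fun g => E.ρ g ∘ₗ l), ?_⟩, ?_⟩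
    · intro g
      ext h v
      simp [Rep.ρ_mul]
    · apply Rep.hom_ext
      apply Representation.IntertwiningMap.ext
      ext g v
      have h1 := Rep.hom_comm_apply e g (l v)
      have h2 := Rep.hom_comm_apply f g (Finsupp.single 1 v)
      simp at h1 h2 ⊢
      rw [h1, h2, hl']

/-- An equivariant map as a morphism. -/
noncomputable def lHom (f : (G →₀ V) →ₗ[k] (G →₀ W))
    (hf : ∀ h z, f (Finsupp.mapDomain (h * ·) z) = Finsupp.mapDomain (h * ·) (f z)) :
    lRep k G V ⟶ lRep k G W :=
  Rep.ofHom ⟨f, fun h => LinearMap.ext fun z => hf h z⟩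

@[simp] theorem lHom_hom_apply (f : (G →₀ V) →ₗ[k] (G →₀ W)) (hf) (z : G →₀ V) :
    (lHom f hf).hom z = f z := rfl

end Rep

/-- A resolution of the trivial module by left translation modules. -/
structure Res (k G : Type u) [CommRing k] [Group G] where
  V : ℕ → Type u
  [acg : ∀ n, AddCommGroup (V n)]
  [mod : ∀ n, Module k (V n)]
  [proj : ∀ n, Module.Projective k (V n)]
  d : ∀ n, (G →₀ V (n + 1)) →ₗ[k] (G →₀ V n)
  ε : (G →₀ V 0) →ₗ[k] k
  d_equiv : ∀ n h z, d n (Finsupp.mapDomain (h * ·) z) = Finsupp.mapDomain (h * ·) (d n z)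
  ε_inv : ∀ h z, ε (Finsupp.mapDomain (h * ·) z) = ε z
  d_d : ∀ n z, d n (d (n + 1) z) = 0
  ε_d : ∀ z, ε (d 0 z) = 0
  exact_d : ∀ n z, d n z = 0 → ∃ w, d (n + 1) w = z
  exact_ε : ∀ z, ε z = 0 → ∃ w, d 0 w = z
  surj_ε : Function.Surjective ε

attribute [instance] Res.acg Res.mod Res.proj

namespace Res

variable {k G : Type u} [CommRing k] [Group G] (R : Res k G)

/-- The complex of representations. -/
noncomputable def cplx : ChainComplex (Rep.{u} k G) ℕ :=
  ChainComplex.of (fun n => lRep k G (R.V n)) (fun n => lHom (R.d n) (R.d_equiv n)) (by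
    intro n
    apply Rep.hom_ext
    apply Representation.IntertwiningMap.ext
    apply LinearMap.ext
    intro z
    exact R.d_d n z)

/-- The augmentation. -/
noncomputable def aug : R.cplx.X 0 ⟶ Rep.trivial k G k :=
  Rep.ofHom (ρ := lrep k G (R.V 0)) ⟨R.ε, fun h => LinearMap.ext fun z => R.ε_inv h z⟩

theorem cplx_d (n : ℕ) : R.cplx.d (n + 1) n = lHom (R.d n) (R.d_equiv n) := by
  simp [cplx]

theorem d_aug : R.cplx.d 1 0 ≫ R.aug = 0 := by
  rw [cplx_d]
  apply Rep.hom_ext
  apply Representation.IntertwiningMap.ext
  apply LinearMap.ext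
  intro z
  exact R.ε_d z

/-- The map to the single complex. -/
noncomputable def π : R.cplx ⟶ (ChainComplex.single₀ (Rep k G)).obj (Rep.trivial k G k) :=
  (R.cplx.toSingle₀Equiv _).symm ⟨R.aug, R.d_aug⟩

theorem π_f_zero : R.π.f 0 = R.aug :=
  ChainComplex.toSingle₀Equiv_symm_apply_f_zero (C := R.cplx) R.aug R.d_aug

theorem rep_exact {A B C : Rep.{u} k G} (f : A ⟶ B) (g : B ⟶ C) (w : f ≫ g = 0)
    (h : ∀ x : B, g.hom x = 0 → ∃ y, f.hom y = x) : (ShortComplex.mk f g w).Exact := by
  apply (forget₂ _ (ModuleCat k)).reflects_exact_of_faithful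
  rw [ShortComplex.moduleCat_exact_iff]
  intro x hx
  exact h x hx

set_option backward.defeqAttrib.useBackward true in
set_option backward.isDefEq.respectTransparency false in
theorem quasiIso_π : QuasiIso R.π where
  quasiIsoAt m := by
    induction m with
    | zero =>
      rw [ChainComplex.quasiIsoAt₀_iff, ShortComplex.quasiIso_iff_of_zeros' _ rfl rfl rfl]
      constructor
      · apply rep_exact
        intro x hx
        change (R.π.f 0).hom x = 0 at hx
        rw [π_f_zero] at hx
        obtain ⟨w, hw⟩ := R.exact_ε x hx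
        refine ⟨w, ?_⟩
        change (R.cplx.d 1 0).hom w = x
        rw [cplx_d]
        exact hw
      · rw [Rep.epi_iff_surjective]
        intro x
        obtain ⟨w, hw⟩ := R.surj_ε x
        refine ⟨w, ?_⟩
        change (R.π.f 0).hom w = x
        rw [π_f_zero]
        exact hw
    | succ m _ =>
      rw [quasiIsoAt_iff_exactAt' (hL := ChainComplex.exactAt_succ_single_obj ..),
          HomologicalComplex.exactAt_iff' _ (m + 2) (m + 1) m (by simp) (by simp)]
      apply rep_exact
      intro x hx
      change (R.cplx.d (m + 1) m).hom x = 0 at hx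
      rw [cplx_d] at hx
      obtain ⟨w, hw⟩ := R.exact_d m x hx
      refine ⟨w, ?_⟩
      change (R.cplx.d (m + 1 + 1) (m + 1)).hom w = x
      rw [cplx_d]
      exact hw

/-- The projective resolution. -/
noncomputable def resolution : ProjectiveResolution (Rep.trivial k G k) where
  complex := R.cplx
  projective _ := lRep_projective
  π := R.π
  quasiIso := R.quasiIso_π

/-- The differential of the coinvariant complex. -/
noncomputable def dbar (n : ℕ) : R.V (n + 1) →ₗ[k] R.V n :=
  (Finsupp.lsum k fun _ : G => LinearMap.id) ∘ₗ R.d n ∘ₗ Finsupp.lsingle 1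

/-- The sum of the values. -/
noncomputable def tot (k : Type u) {G V : Type u} [CommRing k] [AddCommGroup V] [Module k V] :
    (G →₀ V) →ₗ[k] V := Finsupp.lsum k fun _ : G => LinearMap.id

omit [Group G] in
@[simp] theorem tot_single {V : Type u} [AddCommGroup V] [Module k V] (g : G) (v : V) :
    tot k (Finsupp.single g v) = v := by simp [tot]

theorem tot_mapDomain {V : Type u} [AddCommGroup V] [Module k V] (h : G) (z : G →₀ V) :
    tot k (Finsupp.mapDomain (h * ·) z) = tot k z := by
  induction z using Finsupp.induction_linear with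
  | zero => simp
  | add f g hf hg => rw [Finsupp.mapDomain_add, map_add, map_add, hf, hg]
  | single a b => rw [Finsupp.mapDomain_single, tot_single, tot_single]

theorem tot_d (n : ℕ) (z : G →₀ R.V (n + 1)) : tot k (R.d n z) = R.dbar n (tot k z) := by
  induction z using Finsupp.induction_linear with
  | zero => simp
  | add f g hf hg => rw [map_add, map_add, map_add, map_add, hf, hg]
  | single a b =>
    have h1 : (Finsupp.single a b : G →₀ R.V (n + 1)) =
        Finsupp.mapDomain (a * ·) (Finsupp.single 1 b) := by
      rw [Finsupp.mapDomain_single, mul_one]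
    rw [h1, R.d_equiv, tot_mapDomain, tot_mapDomain, tot_single]
    rfl

theorem dbar_dbar (n : ℕ) (v : R.V (n + 2)) : R.dbar n (R.dbar (n + 1) v) = 0 := by
  have h := tot_d R n (R.d (n + 1) (Finsupp.single 1 v))
  rw [R.d_d, map_zero, tot_d, tot_single] at h
  exact h.symm

/-- The map from the coinvariants of the tensor product. -/
noncomputable def coinvTo (V : Type u) [AddCommGroup V] [Module k V] :
    Representation.Coinvariants ((Representation.trivial k G k).tprod (lrep k G V)) →ₗ[k] V :=
  Representation.Coinvariants.lift _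
    (TensorProduct.lift (LinearMap.lsmul k V ∘ₗ LinearMap.id |>.compl₂ (tot k))) (by
      intro h
      apply TensorProduct.ext'
      intro a z
      change a • tot k (lrep k G V h z) = a • tot k z
      rw [lrep_apply, tot_mapDomain])

theorem coinvTo_mk (V : Type u) [AddCommGroup V] [Module k V] (a : k) (z : G →₀ V) :
    coinvTo (k := k) (G := G) V (Representation.Coinvariants.mk _ (a ⊗ₜ[k] z)) =
      a • tot k z := rfl

/-- The map to the coinvariants of the tensor product. -/
noncomputable def coinvFrom (V : Type u) [AddCommGroup V] [Module k V] :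
    V →ₗ[k] Representation.Coinvariants ((Representation.trivial k G k).tprod (lrep k G V)) :=
  Representation.Coinvariants.mk _ ∘ₗ TensorProduct.mk k k (G →₀ V) 1 ∘ₗ Finsupp.lsingle 1

/-- The coinvariants of the tensor product. -/
noncomputable def coinvEquiv (V : Type u) [AddCommGroup V] [Module k V] :
    Representation.Coinvariants ((Representation.trivial k G k).tprod (lrep k G V)) ≃ₗ[k] V :=
  LinearEquiv.ofLinearMap (coinvTo V) (coinvFrom V) (by
      ext v
      change (1 : k) • tot k (Finsupp.single (1 : G) v) = v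
      rw [tot_single, one_smul]) (by
      apply Representation.Coinvariants.hom_ext
      apply TensorProduct.ext'
      intro a z
      change coinvFrom V (a • tot k z) = Representation.Coinvariants.mk _ (a ⊗ₜ[k] z)
      induction z using Finsupp.induction_linear with
      | zero => simp
      | add f g hf hg => rw [map_add, smul_add, map_add, hf, hg, TensorProduct.tmul_add, map_add]
      | single g v =>
        rw [tot_single, map_smul]
        change a • Representation.Coinvariants.mk _ ((1 : k) ⊗ₜ[k] Finsupp.single (1 : G) v) = _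
        rw [← map_smul, TensorProduct.smul_tmul', smul_eq_mul, mul_one]
        have := Representation.Coinvariants.mk_self_apply
          ((Representation.trivial k G k).tprod (lrep k G V)) g (a ⊗ₜ[k] Finsupp.single (1 : G) v)
        rw [← this]
        congr 1
        simp)

/-- The coinvariant complex. -/
noncomputable def bar : ChainComplex (ModuleCat.{u} k) ℕ :=
  ChainComplex.of (fun n => ModuleCat.of k (R.V n)) (fun n => ModuleCat.ofHom (R.dbar n)) (by
    intro n
    ext v
    exact R.dbar_dbar n v)

theorem bar_d (n : ℕ) : R.bar.d (n + 1) n = ModuleCat.ofHom (R.dbar n) := by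
  simp [bar]

theorem dbar_smul_tot (j : ℕ) (a : k) (z : G →₀ R.V (j + 1)) :
    R.dbar j (a • tot k z) = a • tot k (R.d j z) := by
  rw [tot_d, map_smul]

theorem cplx_d_apply (j : ℕ) (z : G →₀ R.V (j + 1)) :
    (R.cplx.d (j + 1) j).hom z = R.d j z := by
  rw [cplx_d]
  rfl

/-- The comparison of the coinvariants of the resolution with the explicit complex. -/
noncomputable def barIso :
    R.resolution.complex.coinvariantsTensorObj (Rep.trivial k G k) ≅ R.bar := by
  refine HomologicalComplex.Hom.isoOfComponents
    (fun n => (coinvEquiv (k := k) (G := G) (R.V n)).toModuleIso) ?_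
  rintro i j rfl
  rw [bar_d]
  apply ModuleCat.hom_ext
  apply Representation.Coinvariants.hom_ext
  apply TensorProduct.ext'
  intro a z
  refine (R.dbar_smul_tot j a z).trans ?_
  change a • tot k (R.d j z) = a • tot k ((R.cplx.d (j + 1) j).hom z)
  exact congrArg (fun y : G →₀ R.V j => a • tot k y) (R.cplx_d_apply j z).symm

/-- The homology of the explicit complex is group homology. -/
noncomputable def homologyIso [DecidableEq G] (n : ℕ) :
    groupHomology (Rep.trivial k G k) n ≅ R.bar.homology n :=
  groupHomologyIso (Rep.trivial k G k) n R.resolution ≪≫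
    HomologicalComplex.homologyMapIso R.barIso n

theorem sc_torsion (S : ShortComplex (ModuleCat.{u} k)) (r : k)
    (h : ∀ z : S.X₂, S.g z = 0 → ∀ w : S.X₁, S.f w = r • z → ∃ w', S.f w' = z)
    (x : S.homology) (hx : r • x = 0) : x = 0 := by
  have hinj : Function.Injective S.moduleCatHomologyIso.hom :=
    (ModuleCat.mono_iff_injective _).1 inferInstance
  apply hinj
  rw [map_zero]
  have hy : r • (S.moduleCatHomologyIso.hom x) = 0 := by
    rw [← map_smul, hx, map_zero]
  generalize S.moduleCatHomologyIso.hom x = y at hy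
  change (LinearMap.ker S.g.hom ⧸ LinearMap.range S.moduleCatToCycles) at y
  obtain ⟨⟨z, hz⟩, rfl⟩ := Submodule.Quotient.mk_surjective _ y
  have hy' : (Submodule.Quotient.mk (r • (⟨z, hz⟩ : LinearMap.ker S.g.hom)) :
    LinearMap.ker S.g.hom ⧸ LinearMap.range S.moduleCatToCycles) = 0 := hy
  obtain ⟨w, hw⟩ := (Submodule.Quotient.mk_eq_zero _).1 hy'
  have hw' : S.f w = r • z := congrArg Subtype.val hw
  obtain ⟨w', hw''⟩ := h z hz w hw'
  refine (Submodule.Quotient.mk_eq_zero _).2 ⟨w', ?_⟩
  exact Subtype.ext hw''

theorem succ_torsion (n : ℕ) (r : k)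
    (h : ∀ z : R.V (n + 1), R.dbar n z = 0 → ∀ w, R.dbar (n + 1) w = r • z →
      ∃ w', R.dbar (n + 1) w' = z)
    (x : groupHomology (Rep.trivial k G k) (n + 1)) (hx : r • x = 0) : x = 0 := by
  classical
  let e : groupHomology (Rep.trivial k G k) (n + 1) ≅
      (R.bar.sc' (n + 2) (n + 1) n).homology :=
    R.homologyIso (n + 1) ≪≫ ShortComplex.homologyMapIso
      (R.bar.isoSc' (n + 2) (n + 1) n (by simp) (by simp))
  have hinj : Function.Injective e.hom := (ModuleCat.mono_iff_injective _).1 inferInstance
  apply hinj
  rw [map_zero]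
  refine sc_torsion _ r ?_ _ (by rw [← map_smul, hx, map_zero])
  intro z hz w hw
  change R.bar.d (n + 1) n z = 0 at hz
  change R.bar.d (n + 2) (n + 1) w = r • z at hw
  change ∃ w', R.bar.d (n + 2) (n + 1) w' = z
  rw [bar_d] at hz hw
  rw [bar_d]
  exact h z hz w hw

end Res

/-- Integral version, with primes only. -/
theorem Res.int_torsion {G : Type} [Group G] (R : Res ℤ G) (n : ℕ)
    (h : ∀ p : ℕ, p.Prime → ∀ z : R.V (n + 1), R.dbar n z = 0 →
      ∀ w, R.dbar (n + 1) w = p • z → ∃ w', R.dbar (n + 1) w' = z)
    (m : ℕ) (hm : m ≠ 0) (x : groupHomology (Rep.trivial ℤ G ℤ) (n + 1)) (hx : m • x = 0) :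
    x = 0 := by
  have hp : ∀ p : ℕ, p.Prime → ∀ x : groupHomology (Rep.trivial ℤ G ℤ) (n + 1),
      p • x = 0 → x = 0 := by
    intro p hp x hx
    refine R.succ_torsion n (p : ℤ) (fun z hz w hw => h p hp z hz w ?_) x ?_
    · rw [hw]
      exact @Nat.cast_smul_eq_nsmul ℤ (R.V (n + 1)) _ _ (R.mod (n + 1)) p z
    · refine Eq.trans ?_ hx
      exact Nat.cast_smul_eq_nsmul ℤ p x
  revert hm x
  induction m using Nat.recOnMul with
  | zero => intro h0; exact absurd rfl h0
  | one => intro _ x hx; simpa using hx
  | prime p hp' =>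
    intro _ x hx
    exact hp p hp' x hx
  | mul a b ha hb =>
    intro hab x hx
    have ha0 : a ≠ 0 := fun e => hab (by rw [e, zero_mul])
    have hb0 : b ≠ 0 := fun e => hab (by rw [e, mul_zero])
    apply hb hb0
    apply ha ha0
    rw [← mul_nsmul']
    exact hx

end W3ab0ed.Lnk
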