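import Pool.Agent.W_MP_3ab0ed_burn.Family
import Pool.Agent.W_MP_3ab0ed_burn.P3Free
import Pool.Agent.W_MP_3ab0ed_h82.QCls
import Pool.Agent.W_MP_3ab0ed_h44.Iterate

/-!
Burnside part, piece P4 (proofs row 77, sections 8, 9): the one-step theorem `StepOut` for the
class `Cls`, from the rotation family `Up.rf` of the cone-off and the interface `StepHyp`.
-/

set_option linter.style.haveILetI false

namespace Burn

open RotFam

/-- The class used in the iteration. -/
def CC (n : ℕ) (B q : ℕ) (G V : Type) [Group G] [MulAction G V] (M : IMet V) : Prop :=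
  Nonempty V ∧ Cls n (Cone.dX : ℤ) (B : ℤ) (q : ℤ) G (V := V) M

/-- freeness of the rotation group, stated for a type `W` of labels of the apices -/
theorem free_labels {G Z Γ W : Type*} [Group G] [MulAction G Z] [MulAction G Γ] [MulAction G W]
    {ρ : Z → Z → ℕ} {δ S Th T : ℕ} (F : RotFam G Z Γ ρ δ S Th T)
    (ι : W → Z) (hι : Function.Injective ι) (hr : F.V = Set.range ι)
    (hsm : ∀ (g : G) w, ι (g • w) = g • ι w) (r : W → G)
    (hH : ∀ w, F.H (ι w) = Subgroup.zpowers (r w))
    (hinf : ∀ w, ∀ m : ℤ, r w ^ m = 1 → m = 0)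
    (hconj : ∀ (g : G) w, r (g • w) = g * r w * g⁻¹) :
    KA F = Subgroup.closure (Set.range r) ∧
    ∃ T : Set W, (∀ v, ∃! t, t ∈ T ∧ ∃ k ∈ KA F, k • t = v) ∧
      Function.Injective (FreeGroup.lift (fun t : T => r t)) ∧
      Subgroup.closure (r '' T) = KA F := by
  classical
  have hmem : ∀ w, ι w ∈ F.V := fun w => by rw [hr]; exact ⟨w, rfl⟩
  obtain ⟨s, hsι⟩ : ∃ s : Z → G, ∀ w, s (ι w) = r w := by
    refine ⟨fun z => if hz : ∃ w, ι w = z then r hz.choose else 1, fun w => ?_⟩
    have hz : ∃ w', ι w' = ι w := ⟨w, rfl⟩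
    simp only [dif_pos hz]
    exact congrArg r (hι hz.choose_spec)
  refine ⟨?_, ?_⟩
  · apply le_antisymm
    · rw [KA, Subgroup.closure_le]
      rintro g ⟨c, hc, hg⟩
      rw [hr] at hc
      obtain ⟨w, rfl⟩ := hc
      rw [hH w] at hg
      have : Subgroup.zpowers (r w) ≤ Subgroup.closure (Set.range r) := by
        rw [Subgroup.zpowers_le]
        exact Subgroup.subset_closure ⟨w, rfl⟩
      exact this hg
    · rw [Subgroup.closure_le]
      rintro _ ⟨w, rfl⟩
      apply H_le_KA (hmem w)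
      rw [hH w]
      exact Subgroup.mem_zpowers _
  · obtain ⟨Tr, hTr, h1, h2, h3⟩ := exists_transversal (F := F) s
      (by
        intro c hc
        rw [hr] at hc
        obtain ⟨w, rfl⟩ := hc
        rw [hsι, hH])
      (by
        intro c hc m hm
        rw [hr] at hc
        obtain ⟨w, rfl⟩ := hc
        rw [hsι] at hm
        exact hinf _ m hm)
      (by
        intro c hc g
        rw [hr] at hc
        obtain ⟨w, rfl⟩ := hc
        rw [← hsm, hsι, hsι, hconj])
    refine ⟨{w | ι w ∈ Tr}, ?_, ?_, ?_⟩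
    · intro v
      obtain ⟨t, ⟨ht, k, hk, hkt⟩, huq⟩ := h1 (ι v) (hmem v)
      have htV := hTr ht
      rw [hr] at htV
      obtain ⟨w, rfl⟩ := htV
      refine ⟨w, ⟨ht, k, hk, hι (by rw [hsm, hkt])⟩, ?_⟩
      rintro w' ⟨hw', k', hk', hkt'⟩
      apply hι
      exact huq _ ⟨hw', k', hk', by rw [← hsm, hkt']⟩
    · let e : {w | ι w ∈ Tr} → Tr := fun w => ⟨ι w.1, w.2⟩
      have he : Function.Injective e := by
        intro a b hab
        exact Subtype.ext (hι (congrArg Subtype.val hab))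
      have hcomp : FreeGroup.lift (fun t : {w | ι w ∈ Tr} => r t.1) =
          (FreeGroup.lift (fun t : Tr => s t)).comp (FreeGroup.map e) := by
        ext t
        simp [e, hsι]
      rw [hcomp, MonoidHom.coe_comp]
      exact h2.comp (FreeGroup.map_injective he)
    · rw [← h3]
      congr 1
      ext g
      constructor
      · rintro ⟨w, hw, rfl⟩
        exact ⟨ι w, hw, hsι w⟩
      · rintro ⟨z, hz, rfl⟩
        have hzV := hTr hz
        rw [hr] at hzV
        obtain ⟨w, rfl⟩ := hzV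
        exact ⟨w, hz, (hsι w).symm⟩

/-- **The one-step theorem**, from the interface `StepHyp` for the rotation family of the
cone-off. -/
theorem Up.stepOut {n B q : ℕ} {G V : Type} [Group G] [MulAction G V] {M : IMet V}
    (H : Up n Cone.dX B q G V M) {N R T R1 : ℕ}
    (hN : 40 * Cone.dX + 3 + B + 20000 * Cone.dX ≤ N) (hR : Cone.depth ≤ R)
    (hT : T * (q * N) ≤ n) (hTh : 2 * ((12 * Cone.dX + 11) * 2 ^ R) ≤ T)
    (hst : letI := apAct (n := n) (δ := Cone.dX) (B := B) (q := q) H.inv
      letI := Cone.coneAct (R := R) (Yx_smul (n := n) (δ := Cone.dX) (B := B) (q := q) H.inv)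
      StepHyp (H.rf hN hR hT hTh) n q R1 B) :
    StepOut n (CC n B q) G V M := by
  letI i1 := apAct (n := n) (δ := Cone.dX) (B := B) (q := q) H.inv
  letI i2 := Cone.coneAct (R := R) (Yx_smul (n := n) (δ := Cone.dX) (B := B) (q := q) H.inv)
  have hst' : StepHyp (H.rf hN hR hT hTh) n q R1 B := hst
  set F := H.rf hN hR hT hTh with hF
  haveI := H.ne
  haveI hKn : (KA F).Normal := KA_normal F
  have hinj : Function.Injective
      (Cone.apex : Ap n Cone.dX B q G M → Cone (Yx n Cone.dX B q M (G := G)) R) := by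
    intro a b hab
    cases hab
    rfl
  have hfree := free_labels F
    (Cone.apex : Ap n Cone.dX B q G M → Cone (Yx n Cone.dX B q M (G := G)) R) hinj rfl
    (fun _ _ => rfl) (fun c => c.1 ^ n) (fun _ => rfl)
    (by
      intro c m hm
      by_contra hne
      refine c.2.1.zpow_ne (j := n * m) ?_ (by rw [zpow_mul, zpow_natCast]; exact hm)
      have := H.hn
      exact mul_ne_zero (by exact_mod_cast this) hne)
    (by
      intro g c
      change (g * c.1 * g⁻¹) ^ n = g * c.1 ^ n * g⁻¹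
      rw [conj_pow])
  obtain ⟨hK, T', hT1, hT2, hT3⟩ := hfree
  haveI : Nonempty (Cone (Yx n Cone.dX B q M (G := G)) R) :=
    ⟨Cone.pt (Classical.arbitrary V)⟩
  refine ⟨Ap n Cone.dX B q G M, i1, fun c => c.1, KA F, hKn, hK, ?_, ?_,
    ⟨T', hT1, hT2, hT3⟩, ?_, QZ F, qAct F, IMet.ofGeod (isGeod_qd (F := F)),
    fun x => qmk F (Cone.pt x), ?_, ?_⟩
  · intro v
    exact stab_eq H.inv v
  · intro g v
    rfl
  · intro g x hx
    rcases H.T g with h | h
    · rw [h]; exact Subgroup.one_mem _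
    · obtain ⟨c, hc⟩ := H.exists_apex h (x := x) (m := 1) le_rfl (by rw [pow_one]; exact_mod_cast hx)
      obtain ⟨i, hi⟩ := Subgroup.mem_zpowers_iff.1 hc
      have h1 : c.1 ^ n ∈ KA F := by
        rw [hK]
        exact Subgroup.subset_closure ⟨c, rfl⟩
      have e1 : g ^ n = (c.1 ^ n) ^ i := by
        rw [← hi, ← zpow_natCast, ← zpow_mul, mul_comm i (n : ℤ), zpow_mul, zpow_natCast]
      rw [e1]
      exact Subgroup.zpow_mem _ h1 i
  · exact ⟨⟨qmk F (Cone.pt (Classical.arbitrary V))⟩, hst'.cls⟩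
  · intro g x k hk
    change ((qd F (qmk F (Cone.pt x)) (qmk F (g • Cone.pt x)) : ℕ) : ℤ) ≤ k
    have h1 := qd_le (F := F) (Cone.pt x) (g • Cone.pt x)
    have h2 : Cone.rho (Y := Yx n Cone.dX B q M (G := G)) (R := R) (resc M.nd N) (Cone.pt x)
        (Cone.pt (g • x)) ≤ resc M.nd N x (g • x) :=
      Cone.rho_pt_pt (isGeod_resc M.isGeod (by omega)) x (g • x)
    have h3 : (g • (Cone.pt x : Cone (Yx n Cone.dX B q M (G := G)) R)) = Cone.pt (g • x) := rfl
    rw [h3] at h1 ⊢
    have h0 := M.nonneg x (g • x)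
    have hk0 : 0 ≤ k := by omega
    have h4 : resc M.nd N x (g • x) ≤ k.toNat := by
      apply resc_le (by omega)
      have h5 := M.nd_cast x (g • x)
      have h6 : (k.toNat : ℤ) = k := Int.toNat_of_nonneg hk0
      have h7 : 2 * k.toNat ≤ N * k.toNat := Nat.mul_le_mul_right _ (by omega)
      omega
    have h6 : (k.toNat : ℤ) = k := Int.toNat_of_nonneg hk0
    omega

end Burn
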