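import Mathlib

/-!
Homology part of MP_3ab0ed_al.  Finitely supported functions on a set with a permutation of prime
order: invariants and coinvariants modulo an integer.
-/

namespace W3ab0ed.TF

open Finsupp

variable {Y : Type}

/-- Multiplication of a finitely supported function by a function. -/
noncomputable def mulF (τ : Y → ℤ) (f : Y →₀ ℤ) : Y →₀ ℤ :=
  Finsupp.onFinset f.support (fun y => τ y * f y) (fun y hy => by
    rw [Finsupp.mem_support_iff]
    intro h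
    exact hy (by rw [h, mul_zero]))

@[simp] theorem mulF_apply (τ : Y → ℤ) (f : Y →₀ ℤ) (y : Y) : mulF τ f y = τ y * f y := rfl

theorem mapDomain_perm_apply (σ : Equiv.Perm Y) (f : Y →₀ ℤ) (y : Y) :
    Finsupp.mapDomain σ f y = f (σ⁻¹ y) := by
  have h : y = σ (σ⁻¹ y) := by simp
  conv_lhs => rw [h]
  exact Finsupp.mapDomain_apply σ.injective f _

theorem pow_injOn {p : ℕ} (hp : p.Prime) (σ : Equiv.Perm Y) (hσ : σ ^ p = 1) {y : Y}
    (hy : σ y ≠ y) {l m : ℕ} (hl : l < p) (hm : m < p) (h : (σ ^ l) y = (σ ^ m) y) : l = m := by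
  have : Fact p.Prime := ⟨hp⟩
  have h1 : Function.minimalPeriod σ y = p := by
    apply Function.minimalPeriod_eq_prime
    · change σ^[p] y = y
      rw [← Equiv.Perm.coe_pow, hσ]
      rfl
    · exact hy
  have h2 := Function.iterate_injOn_Iio_minimalPeriod (f := σ) (x := y)
  rw [h1] at h2
  apply h2 (Set.mem_Iio.2 hl) (Set.mem_Iio.2 hm)
  change σ^[l] y = σ^[m] y
  rw [← Equiv.Perm.coe_pow, ← Equiv.Perm.coe_pow]
  exact h

/-- A transversal function. -/
theorem exists_tau {p : ℕ} (hp : p.Prime) (σ : Equiv.Perm Y) (hσ : σ ^ p = 1) :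
    ∃ τ : Y → ℤ, ∀ y, σ y ≠ y → ∑ l ∈ Finset.range p, τ ((σ ^ l) y) = 1 := by
  classical
  let S : Setoid Y := Equiv.Perm.SameCycle.setoid σ
  let rep : Y → Y := fun y => (Quotient.mk S y).out
  have hrep : ∀ y, σ.SameCycle (rep y) y := fun y =>
    @Quotient.exact Y S (rep y) y (Quotient.out_eq (Quotient.mk S y))
  have hrep2 : ∀ y z, σ.SameCycle y z → rep y = rep z := by
    intro y z h
    change (Quotient.mk S y).out = (Quotient.mk S z).out
    rw [Quotient.sound (s := S) h]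
  refine ⟨fun y => if rep y = y then 1 else 0, fun y hy => ?_⟩
  obtain ⟨i, hi⟩ := (hrep y).symm
  have hp0 : (p : ℤ) ≠ 0 := by exact_mod_cast hp.ne_zero
  obtain ⟨m, hm⟩ : ∃ m : ℕ, (m : ℤ) = i % p :=
    ⟨(i % p).toNat, Int.toNat_of_nonneg (Int.emod_nonneg _ hp0)⟩
  have hmp : m < p := by
    have := Int.emod_lt_of_pos i (by exact_mod_cast hp.pos : (0 : ℤ) < p)
    omega
  have hm' : (σ ^ m) y = rep y := by
    rw [← hi]
    have h1 : (σ ^ i : Equiv.Perm Y) = σ ^ m := by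
      rw [← Int.emod_add_mul_ediv i p, ← hm, zpow_add, zpow_mul, zpow_natCast, zpow_natCast, hσ,
        one_zpow, mul_one]
    rw [h1]
  have hsame : ∀ l : ℕ, rep ((σ ^ l) y) = rep y := by
    intro l
    apply hrep2
    exact Equiv.Perm.SameCycle.symm ⟨l, by simp⟩
  rw [Finset.sum_eq_single m]
  · apply if_pos
    rw [hsame, hm']
  · intro l hl hlm
    apply if_neg
    rw [hsame, ← hm']
    intro h
    exact hlm (pow_injOn hp σ hσ hy (Finset.mem_range.1 hl) hmp h.symm)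
  · intro h
    exact absurd (Finset.mem_range.2 hmp) h

theorem exists_geom (σ : Equiv.Perm Y) (l : ℕ) (f : Y →₀ ℤ) :
    ∃ h : Y →₀ ℤ, Finsupp.mapDomain (σ ^ l : Equiv.Perm Y) f - f = Finsupp.mapDomain σ h - h := by
  induction l with
  | zero => exact ⟨0, by simp⟩
  | succ l ih =>
    obtain ⟨h, hh⟩ := ih
    refine ⟨h + Finsupp.mapDomain (σ ^ l : Equiv.Perm Y) f, ?_⟩
    have h1 : Finsupp.mapDomain (σ ^ (l + 1) : Equiv.Perm Y) f =
        Finsupp.mapDomain σ (Finsupp.mapDomain (σ ^ l : Equiv.Perm Y) f) := by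
      rw [← Finsupp.mapDomain_comp, pow_succ']
      rfl
    rw [h1, Finsupp.mapDomain_add]
    have h2 : Finsupp.mapDomain (σ ^ l : Equiv.Perm Y) f = f + (Finsupp.mapDomain σ h - h) := by
      rw [← hh]; abel
    generalize Finsupp.mapDomain (σ ^ l : Equiv.Perm Y) f = A at *
    rw [h2]
    abel

/-- Coinvariants modulo an integer. -/
theorem coinv_mod {p : ℕ} (hp : p.Prime) (σ : Equiv.Perm Y) (hσ : σ ^ p = 1) (q : ℤ)
    (c : Y →₀ ℤ) (h0 : ∀ y, σ y = y → c y = 0)
    (h1 : ∀ y, σ y ≠ y → q ∣ ∑ l ∈ Finset.range p, c ((σ ^ l) y)) :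
    ∃ c' c'' : Y →₀ ℤ, c = Finsupp.mapDomain σ c' - c' + q • c'' := by
  obtain ⟨τ, hτ⟩ := exists_tau hp σ⁻¹ (by rw [inv_pow, hσ, inv_one])
  have hfix : ∀ (y : Y) (l : ℕ), σ y = y → (σ ^ l) y = y := by
    intro y l h
    induction l with
    | zero => simp
    | succ l ih => rw [pow_succ, Equiv.Perm.mul_apply, h, ih]
  let f : ℕ → Y →₀ ℤ := fun l => mulF τ (Finsupp.mapDomain ((σ ^ l)⁻¹ : Equiv.Perm Y) c)
  have hf : ∀ l y, f l y = τ y * c ((σ ^ l) y) := by
    intro l y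
    change τ y * Finsupp.mapDomain ((σ ^ l)⁻¹ : Equiv.Perm Y) c y = _
    rw [mapDomain_perm_apply, inv_inv]
  have hc : c = ∑ l ∈ Finset.range p, Finsupp.mapDomain (σ ^ l : Equiv.Perm Y) (f l) := by
    ext y
    rw [Finsupp.finsetSum_apply]
    have h2 : ∀ l ∈ Finset.range p, Finsupp.mapDomain (σ ^ l : Equiv.Perm Y) (f l) y =
        τ ((σ⁻¹ ^ l) y) * c y := by
      intro l _
      rw [mapDomain_perm_apply, hf, inv_pow]
      congr 2
      exact (σ ^ l).apply_symm_apply y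
    rw [Finset.sum_congr rfl h2, ← Finset.sum_mul]
    by_cases hy : σ y = y
    · rw [h0 y hy, mul_zero]
    · rw [hτ y (fun h => hy (by rw [Equiv.Perm.inv_eq_iff_eq] at h; exact h.symm)), one_mul]
  choose h hh using fun l => exists_geom σ l (f l)
  have hq : ∀ y, q ∣ (∑ l ∈ Finset.range p, f l) y := by
    intro y
    rw [Finsupp.finsetSum_apply]
    simp only [hf]
    rw [← Finset.mul_sum]
    apply Dvd.dvd.mul_left
    by_cases hy : σ y = y
    · apply Finset.dvd_sum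
      intro l _
      rw [hfix y l hy, h0 y hy]
      exact dvd_zero _
    · exact h1 y hy
  refine ⟨∑ l ∈ Finset.range p, h l,
    (∑ l ∈ Finset.range p, f l).mapRange (fun z => z / q) (by simp), ?_⟩
  have h3 : q • (∑ l ∈ Finset.range p, f l).mapRange (fun z => z / q) (by simp) =
      ∑ l ∈ Finset.range p, f l := by
    ext y
    rw [Finsupp.smul_apply, Finsupp.mapRange_apply, smul_eq_mul]
    exact Int.mul_ediv_cancel' (hq y)
  rw [h3]
  conv_lhs => rw [hc]
  have h4 : Finsupp.mapDomain σ (∑ l ∈ Finset.range p, h l) =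
      ∑ l ∈ Finset.range p, Finsupp.mapDomain σ (h l) := by
    exact map_sum (Finsupp.mapDomain.addMonoidHom σ) _ _
  rw [h4, ← Finset.sum_sub_distrib, ← Finset.sum_add_distrib]
  refine Finset.sum_congr rfl fun l _ => ?_
  rw [← hh l]
  abel

/-- Invariants modulo an integer are norms, for a free action. -/
theorem inv_mod {p : ℕ} (hp : p.Prime) (σ : Equiv.Perm Y) (hσ : σ ^ p = 1)
    (hfree : ∀ y, σ y ≠ y) (q : ℤ) (t e : Y →₀ ℤ) (ht : Finsupp.mapDomain σ t - t = q • e) :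
    ∃ s t' : Y →₀ ℤ,
      t = ∑ l ∈ Finset.range p, Finsupp.mapDomain (σ ^ l : Equiv.Perm Y) s + q • t' := by
  obtain ⟨τ, hτ⟩ := exists_tau hp σ⁻¹ (by rw [inv_pow, hσ, inv_one])
  have h1 : ∀ (l : ℕ) (y : Y), q ∣ t y - t ((σ⁻¹ ^ l) y) := by
    intro l
    induction l with
    | zero => intro y; simp
    | succ l ih =>
      intro y
      have h2 := ih y
      have h3 := congrArg (fun f : Y →₀ ℤ => f ((σ⁻¹ ^ l) y)) ht
      simp only [Finsupp.sub_apply, Finsupp.smul_apply, smul_eq_mul, mapDomain_perm_apply] at h3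
      have h4 : (σ⁻¹ ^ (l + 1)) y = σ⁻¹ ((σ⁻¹ ^ l) y) := by
        rw [pow_succ', Equiv.Perm.mul_apply]
      rw [h4]
      have h5 : q ∣ t ((σ⁻¹ ^ l) y) - t (σ⁻¹ ((σ⁻¹ ^ l) y)) :=
        ⟨- e ((σ⁻¹ ^ l) y), by linarith⟩
      have h6 := dvd_add h2 h5
      rwa [sub_add_sub_cancel] at h6
  have hd : ∀ y, q ∣ (t - ∑ l ∈ Finset.range p,
      Finsupp.mapDomain (σ ^ l : Equiv.Perm Y) (mulF τ t)) y := by
    intro y
    rw [Finsupp.sub_apply, Finsupp.finsetSum_apply]
    have h2 : ∀ l ∈ Finset.range p, Finsupp.mapDomain (σ ^ l : Equiv.Perm Y) (mulF τ t) y =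
        τ ((σ⁻¹ ^ l) y) * t ((σ⁻¹ ^ l) y) := by
      intro l _
      rw [mapDomain_perm_apply, mulF_apply, inv_pow]
    rw [Finset.sum_congr rfl h2]
    have h3 : t y = ∑ l ∈ Finset.range p, τ ((σ⁻¹ ^ l) y) * t y := by
      rw [← Finset.sum_mul, hτ y (fun h => hfree y (by
        rw [Equiv.Perm.inv_eq_iff_eq] at h; exact h.symm)), one_mul]
    conv_rhs => rw [h3]
    rw [← Finset.sum_sub_distrib]
    apply Finset.dvd_sum
    intro l _
    rw [← mul_sub]
    exact Dvd.dvd.mul_left (h1 l y) _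
  refine ⟨mulF τ t, (t - ∑ l ∈ Finset.range p,
      Finsupp.mapDomain (σ ^ l : Equiv.Perm Y) (mulF τ t)).mapRange (fun z => z / q) (by simp), ?_⟩
  ext y
  rw [Finsupp.add_apply, Finsupp.smul_apply, Finsupp.mapRange_apply, smul_eq_mul,
    Int.mul_ediv_cancel' (hd y), Finsupp.sub_apply]
  ring

end W3ab0ed.TF
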