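import Pool.Agent.W_MP_3ab0ed_h30.UpL

/-!
Burnside part, piece P4 (proofs row 77, section 5): the property (S) of the quotient action, for
an abstract rotation family with the facts (A2) (pairs of far points of the cone-off which are
moved little by two elements) and (A4) (the stabilizers of the apices are cyclic).
-/

namespace Burn

namespace RotFam

variable {G Z Γ : Type*} [Group G] [MulAction G Z] [MulAction G Γ]
  {ρ : Z → Z → ℕ} {δ S Th T : ℕ} {F : RotFam G Z Γ ρ δ S Th T}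

/-- displacement of a point of an interval -/
theorem qd_disp_btw {X : Type*} {d : X → X → ℕ} (hd : IsGeod d) (hh : Hyp d δ)
    {x y z x' y' z' : X} (hx : d x' z' = d x z) (hy : d z' y' = d z y)
    (hz : d x z + d z y = d x y) {b : ℕ} (h1 : d x x' ≤ b) (h2 : d y y' ≤ b) :
    d z z' ≤ b + δ := by
  have h4 := hh x y z z'
  have s1 := hd.symm y z
  have s2 := hd.symm y z'
  have s3 := hd.symm y y'
  have t1 := hd.tri x x' z'
  have t2 := hd.tri z' y' y
  have s4 := hd.symm y' y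
  have s5 := hd.symm x z'
  rcases Nat.le_total (d x z + d y z') (d x z' + d y z) with hm | hm
  · rw [max_eq_right hm] at h4; omega
  · rw [max_eq_left hm] at h4; omega

/-- a cyclic subgroup of the quotient from a cyclic stabilizer upstairs -/
theorem common_of_fix {c : Z} {a : G} (ha : ∀ g : G, g • c = c → g ∈ Subgroup.zpowers a)
    {g h : G} (hg : ∃ k ∈ KA F, (k * g) • c = c) (hh : ∃ k ∈ KA F, (k * h) • c = c) :
    ∃ t : G ⧸ KA F, (QuotientGroup.mk g : G ⧸ KA F) ∈ Subgroup.zpowers t ∧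
      (QuotientGroup.mk h : G ⧸ KA F) ∈ Subgroup.zpowers t := by
  have key : ∀ g : G, (∃ k ∈ KA F, (k * g) • c = c) →
      (QuotientGroup.mk g : G ⧸ KA F) ∈ Subgroup.zpowers (QuotientGroup.mk a : G ⧸ KA F) := by
    rintro g ⟨k, hk, h1⟩
    obtain ⟨i, hi⟩ := Subgroup.mem_zpowers_iff.1 (ha _ h1)
    refine Subgroup.mem_zpowers_iff.2 ⟨i, ?_⟩
    have e1 : (QuotientGroup.mk k : G ⧸ KA F) = 1 := (QuotientGroup.eq_one_iff k).2 hk
    rw [← QuotientGroup.mk_zpow, hi, QuotientGroup.mk_mul, e1, one_mul]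
  exact ⟨QuotientGroup.mk a, key g hg, key h hh⟩

/-- (S) for the quotient action -/
theorem s_step {R1 L B : ℕ}
    (hA2 : ∀ (x y : Z) (g h : G), x ∉ F.V → y ∉ F.V → ρ x (g • x) ≤ L → ρ y (g • y) ≤ L →
      ρ x (h • x) ≤ L → ρ y (h • y) ≤ L → B < ρ x y →
      ∃ t : G, g ∈ Subgroup.zpowers t ∧ h ∈ Subgroup.zpowers t)
    (hA4 : ∀ c ∈ F.V, ∃ a : G, ∀ g : G, g • c = c → g ∈ Subgroup.zpowers a)
    (hS : 2 * R1 + (L + δ) < S) (hL : L ≤ R1) (hT : 5 * Th ≤ T)
    (g' h' : G ⧸ KA F) (x' y' : QZ F)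
    (hgx : qd F x' (g' • x') ≤ L) (hgy : qd F y' (g' • y') ≤ L)
    (hhx : qd F x' (h' • x') ≤ L) (hhy : qd F y' (h' • y') ≤ L) (hxy : B < qd F x' y') :
    ∃ t : G ⧸ KA F, g' ∈ Subgroup.zpowers t ∧ h' ∈ Subgroup.zpowers t := by
  obtain ⟨x, rfl⟩ := qmk_surj x'
  obtain ⟨y, rfl, hd⟩ := qd_lift x y'
  by_cases hII : ∃ z, ρ x z + ρ z y = ρ x y ∧ ∃ c ∈ F.V, ρ z c ≤ R1
  · -- an apex near the segment
    obtain ⟨z, hz, c, hc, hzc⟩ := hII
    obtain ⟨g, rfl⟩ := QuotientGroup.mk_surjective g'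
    obtain ⟨h, rfl⟩ := QuotientGroup.mk_surjective h'
    have hgeo := isGeod_qd (F := F)
    have hhyp := hyp_qd (F := F) hT
    have l1 := qd_le (F := F) x z
    have l2 := qd_le (F := F) z y
    have l3 := hgeo.tri (qmk F x) (qmk F z) (qmk F y)
    have key : ∀ g : G, qd F (qmk F x) ((QuotientGroup.mk g : G ⧸ KA F) • qmk F x) ≤ L →
        qd F (qmk F y) ((QuotientGroup.mk g : G ⧸ KA F) • qmk F y) ≤ L →
        ∃ k ∈ KA F, (k * g) • c = c := by
      intro g h1 h2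
      have h3 := qd_disp_btw hgeo hhyp (x := qmk F x) (y := qmk F y) (z := qmk F z)
        (x' := (QuotientGroup.mk g : G ⧸ KA F) • qmk F x)
        (y' := (QuotientGroup.mk g : G ⧸ KA F) • qmk F y)
        (z' := (QuotientGroup.mk g : G ⧸ KA F) • qmk F z)
        (qd_inv _ _ _) (qd_inv _ _ _) (by omega) h1 h2
      rw [mk_smul_qmk, qd_mk] at h3
      exact upL1' hc hzc h3 hS
    obtain ⟨a, ha⟩ := hA4 c hc
    exact common_of_fix ha (key g hgx hgy) (key h hhx hhy)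
  · -- the segment stays away from the apices
    push Not at hII
    have hI : ∀ z, ρ x z + ρ z y = ρ x y → ∀ c ∈ F.V, R1 < ρ z c := hII
    obtain ⟨g, rfl, h1, h2⟩ := lift_seg hI hL hT g' hgx hgy
    obtain ⟨h, rfl, h3, h4⟩ := lift_seg hI hL hT h' hhx hhy
    have hxV : x ∉ F.V := by
      intro hx
      have := hI x (by rw [F.geo.self]; omega) x hx
      rw [F.geo.self] at this
      omega
    have hyV : y ∉ F.V := by
      intro hy
      have := hI y (by rw [F.geo.self]; omega) y hy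
      rw [F.geo.self] at this
      omega
    obtain ⟨t, ht1, ht2⟩ := hA2 x y g h hxV hyV h1 h2 h3 h4 (by omega)
    obtain ⟨i, rfl⟩ := Subgroup.mem_zpowers_iff.1 ht1
    obtain ⟨j, rfl⟩ := Subgroup.mem_zpowers_iff.1 ht2
    exact ⟨QuotientGroup.mk t, Subgroup.mem_zpowers_iff.2 ⟨i, (QuotientGroup.mk_zpow _ _ _).symm⟩,
      Subgroup.mem_zpowers_iff.2 ⟨j, (QuotientGroup.mk_zpow _ _ _).symm⟩⟩

end RotFam

end Burn
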