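import Pool.Agent.W_MP_3ab0ed_h30.Transfer

/-!
Homology part of MP_3ab0ed_al.  The decomposition of the faces of a cycle modulo an integer.
-/

namespace W3ab0ed.TF

open Finsupp Module
open scoped Pointwise

set_option linter.unusedSectionVars false

variable {κ G Q X I : Type} [Group G] [Group Q] [LinearOrder X] [MulAction (FreeGroup κ) X]
  {φ : FreeGroup κ →* G} {π : G →* Q} {t : X → G} {c : G → (X →₀ ℤ)}
  {a : I → FreeGroup κ} {x0 : I → X} {p : ℕ}

theorem insert_inj_of_notMem {x : X} {s s' : Finset X} (h : x ∉ s) (h' : x ∉ s')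
    (he : insert x s = insert x s') : s = s' := by
  rw [← Finset.erase_insert h, ← Finset.erase_insert h', he]

theorem repr_ew_insert {x : X} {s : Finset X} (h : x ∉ s) (v : Lam X) :
    (fb κ X).repr (ew x v) (insert x s) = eta κ x s * (fb κ X).repr v s := by
  have h2 : ((Finsupp.lapply (insert x s) ∘ₗ (fb κ X).repr.toLinearMap ∘ₗ ew x :
      Lam X →ₗ[ℤ] ℤ)) =
      eta κ x s • (Finsupp.lapply s ∘ₗ (fb κ X).repr.toLinearMap) := by
    refine (fb κ X).ext fun u => ?_
    change (fb κ X).repr (ew x (fb κ X u)) (insert x s) =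
      eta κ x s * (fb κ X).repr (fb κ X u) s
    by_cases hu : x ∈ u
    · have hne : s ≠ u := fun e => h (e ▸ hu)
      rw [ew_fb_of_mem hu, map_zero, Finsupp.zero_apply, Basis.repr_self,
        Finsupp.single_eq_of_ne hne, mul_zero]
    · rw [ew_fb hu, map_smul, Basis.repr_self, Finsupp.smul_apply, smul_eq_mul, Basis.repr_self]
      by_cases hs : s = u
      · subst hs
        rw [Finsupp.single_eq_same, Finsupp.single_eq_same]
      · have hne : insert x s ≠ insert x u := fun e => hs (insert_inj_of_notMem h hu e)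
        rw [Finsupp.single_eq_of_ne hne, Finsupp.single_eq_of_ne hs, mul_zero, mul_zero]
  exact LinearMap.congr_fun h2 v

theorem repr_ew_notMem {x : X} {s : Finset X} (h : x ∉ s) (v : Lam X) :
    (fb κ X).repr (ew x v) s = 0 := by
  have h2 : ((Finsupp.lapply s ∘ₗ (fb κ X).repr.toLinearMap ∘ₗ ew x :
      Lam X →ₗ[ℤ] ℤ)) = 0 := by
    refine (fb κ X).ext fun u => ?_
    change (fb κ X).repr (ew x (fb κ X u)) s = 0
    by_cases hu : x ∈ u
    · rw [ew_fb_of_mem hu, map_zero, Finsupp.zero_apply]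
    · have hne : s ≠ insert x u := fun e => h (e ▸ Finset.mem_insert_self x u)
      rw [ew_fb hu, map_smul, Basis.repr_self, Finsupp.smul_apply, Finsupp.single_eq_of_ne hne,
        smul_zero]
  exact LinearMap.congr_fun h2 v

theorem apow_fix (H : Good φ π t c a x0 p) (i : I) (l : ℕ) : (a i ^ l) • x0 i = x0 i := by
  induction l with
  | zero => rw [pow_zero, one_smul]
  | succ l ih => rw [pow_succ, mul_smul, H.afix, ih]

theorem mem_apow_smul (H : Good φ π t c a x0 p) (i : I) (l : ℕ) {s : Finset X}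
    (h : x0 i ∈ s) : x0 i ∈ (a i ^ l) • s := by
  have := Finset.smul_mem_smul_finset (a := a i ^ l) h
  rwa [apow_fix H] at this

/-- The basic congruence. -/
theorem star (H : Good φ π t c a x0 p) {q : ℤ} (hq : q ≠ 0) (w : I →₀ (Lam X × Lam X))
    (h1 : ∀ i, ∃ e : Lam X, bR (a i) (w i).2 - (w i).2 = q • e)
    (U : κ →₀ Lam X) (h2 : th2 bR (fun i => ew (x0 i)) a p w = q • U) (i : I)
    {y : Finset X} (hy : y.Nonempty) :
    q ∣ ∑ l ∈ Finset.range p, (fb κ X).repr (w i).1 ((a i ^ l) • y) +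
      (fb κ X).repr (ew (x0 i) (w i).2) y := by
  classical
  let v : I →₀ Lam X := Finsupp.onFinset w.support
    (fun i => ∑ l ∈ Finset.range p, bR (a i ^ l) (w i).1 + ew (x0 i) (w i).2) (fun i hi => by
      rw [Finsupp.mem_support_iff]
      intro h0
      apply hi
      rw [h0]
      simp)
  have hv : ∀ i, v i = ∑ l ∈ Finset.range p, bR (a i ^ l) (w i).1 + ew (x0 i) (w i).2 :=
    fun i => rfl
  have h3 := lam_inj H hq v (by
    intro i
    obtain ⟨e, he⟩ := h1 i
    refine ⟨ew (x0 i) e, ?_⟩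
    have h4 := H.totOK_b.geom' (a i) p (w i).1
    rw [bR_triv (H.apow_smul i), sub_self] at h4
    rw [hv, map_add, H.totOK_b.Rh, ← map_smul, ← he, map_sub]
    generalize ∑ j ∈ Finset.range p, bR (a i ^ j) (w i).1 = A at *
    rw [sub_eq_zero] at h4
    rw [h4]
    abel) U (by
    rw [← h2]
    have h5 : th2 bR (fun i => ew (x0 i)) a p w = w.sum (fun i z =>
        PP bR (a i ^ p) z.1 + PP bR (a i) (ew (x0 i) z.2)) := by
      unfold th2
      rw [Finsupp.lsum_apply]
      rfl
    rw [h5]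
    refine Eq.trans (Finsupp.onFinset_sum _ (fun i => map_zero _)) ?_
    refine Finset.sum_congr rfl fun i _ => ?_
    change PP bR (a i) (∑ l ∈ Finset.range p, bR (a i ^ l) (w i).1 + ew (x0 i) (w i).2) =
      PP bR (a i ^ p) (w i).1 + PP bR (a i) (ew (x0 i) (w i).2)
    rw [PP_pow _ bR_mul, ← map_add]) i hy
  rw [hv, map_add, Finsupp.add_apply, map_sum, Finsupp.finsetSum_apply] at h3
  simp only [repr_bR (hodd H) (hact H)] at h3
  exact h3

/-- The second components vanish modulo the integer. -/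
theorem second_zero (H : Good φ π t c a x0 p) {q : ℤ} (hq : q ≠ 0) (w : I →₀ (Lam X × Lam X))
    (hw1 : ∀ i, (w i).1 ∈ LinearMap.ker (ic (x0 i)))
    (hw2 : ∀ i, (w i).2 ∈ LinearMap.ker (ic (x0 i)))
    (h1 : ∀ i, ∃ e : Lam X, bR (a i) (w i).2 - (w i).2 = q • e)
    (U : κ →₀ Lam X) (h2 : th2 bR (fun i => ew (x0 i)) a p w = q • U) (i : I) (s : Finset X) :
    q ∣ (fb κ X).repr (w i).2 s := by
  by_cases hs : x0 i ∈ s
  · by_cases h0 : (fb κ X).repr (w i).2 s = 0
    · rw [h0]; exact dvd_zero _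
    · exact absurd hs ((mem_ker_ic_iff κ).1 (hw2 i) s h0)
  · have h3 := star H hq w h1 U h2 i (Finset.insert_nonempty (x0 i) s)
    rw [repr_ew_insert hs, Finset.sum_eq_zero, zero_add] at h3
    · rcases eta_eq (κ := κ) hs with h4 | h4 <;> rw [h4] at h3
      · rwa [one_mul] at h3
      · rwa [neg_one_mul, dvd_neg] at h3
    · intro l _
      by_contra h0
      exact (mem_ker_ic_iff κ).1 (hw1 i) _ h0
        (mem_apow_smul H i l (Finset.mem_insert_self _ _))

/-- The orbit sums of the first components vanish modulo the integer, off the fixed sets. -/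
theorem first_orb (H : Good φ π t c a x0 p) {q : ℤ} (hq : q ≠ 0) (w : I →₀ (Lam X × Lam X))
    (hw1 : ∀ i, (w i).1 ∈ LinearMap.ker (ic (x0 i)))
    (h1 : ∀ i, ∃ e : Lam X, bR (a i) (w i).2 - (w i).2 = q • e)
    (U : κ →₀ Lam X) (h2 : th2 bR (fun i => ew (x0 i)) a p w = q • U) (i : I) (s : Finset X)
    (hs : s.Nonempty) : q ∣ ∑ l ∈ Finset.range p, (fb κ X).repr (w i).1 ((a i ^ l) • s) := by
  by_cases hx : x0 i ∈ s
  · rw [Finset.sum_eq_zero]
    · exact dvd_zero _
    · intro l _
      by_contra h0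
      exact (mem_ker_ic_iff κ).1 (hw1 i) _ h0 (mem_apow_smul H i l hx)
  · have h3 := star H hq w h1 U h2 i hs
    rwa [repr_ew_notMem hx, add_zero] at h3

end W3ab0ed.TF
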