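import Pool.Agent.W_MP_3ab0ed_h30.TFMain
import Pool.Agent.W_MP_3ab0ed_h44.FixU

/-!
Homology part of MP_3ab0ed_al.  Proof of `TFStatement`.
-/

namespace W3ab0ed.TF

open Finsupp Module
open scoped Pointwise

set_option linter.unusedSectionVars false

section

variable {κ G Q X I : Type} [Group G] [Group Q] [LinearOrder X] [MulAction (FreeGroup κ) X]
  {φ : FreeGroup κ →* G} {π : G →* Q} {t : X → G} {c : G → (X →₀ ℤ)}
  {a : I → FreeGroup κ} {x0 : I → X} {p : ℕ}

theorem div_lam (κ : Type) {X : Type} [LinearOrder X] [MulAction (FreeGroup κ) X]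
    {q : ℤ} (hq : q ≠ 0) (v : Lam X) (h : ∀ s, q ∣ (fb κ X).repr v s) :
    ∃ v' : Lam X, v = q • v' ∧ ∀ (j : ℤ) (x : X), v ∈ gr X j ⊓ LinearMap.ker (ic x) →
      v' ∈ gr X j ⊓ LinearMap.ker (ic x) := by
  have h1 : (fb κ X).repr v = q • ((fb κ X).repr v).mapRange (fun z => z / q) (by simp) := by
    ext s
    rw [Finsupp.smul_apply, Finsupp.mapRange_apply, smul_eq_mul, Int.mul_ediv_cancel' (h s)]
  refine ⟨LL κ (((fb κ X).repr v).mapRange (fun z => z / q) (by simp)), ?_, ?_⟩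
  · rw [← map_smul, ← h1, LL_repr]
  · intro j x hv
    apply LL_mem
    intro s hs
    have h2 : (fb κ X).repr v s ≠ 0 := by
      intro h0
      apply hs
      rw [Finsupp.mapRange_apply, h0]
      simp
    exact ⟨(mem_ker_ic_iff κ).1 hv.2 s h2, (mem_gr_iff κ).1 hv.1 s h2⟩

/-- The decomposition of the faces of a chain which is a cycle modulo an integer. -/
theorem faces_decomp (H : Good φ π t c a x0 p) {q : ℤ} (hq : q ≠ 0) (w : I →₀ (Lam X × Lam X))
    {j : ℤ} (hw : ∀ i, (w i).1 ∈ gr X j ⊓ LinearMap.ker (ic (x0 i)) ∧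
      (w i).2 ∈ gr X (j - 1) ⊓ LinearMap.ker (ic (x0 i)))
    (h1 : ∀ i, ∃ e : Lam X, bR (a i) (w i).2 - (w i).2 = q • e)
    (U : κ →₀ Lam X) (h2 : th2 bR (fun i => ew (x0 i)) a p w = q • U)
    (u : κ →₀ Lam X) (y : Lam X) (h3 : del bR u + th1 (fun i => ew (x0 i)) w = q • y) :
    ∃ w' w'' : I →₀ (Lam X × Lam X),
      (∀ i, (w'' i).1 ∈ gr X j ⊓ LinearMap.ker (ic (x0 i)) ∧
        (w'' i).2 ∈ gr X (j - 1) ⊓ LinearMap.ker (ic (x0 i))) ∧
      w = facesd 0 bR a w' + q • w'' := by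
  classical
  have hw1 : ∀ i, (w i).1 ∈ LinearMap.ker (ic (x0 i)) := fun i => (hw i).1.2
  have hw2 : ∀ i, (w i).2 ∈ LinearMap.ker (ic (x0 i)) := fun i => (hw i).2.2
  -- the decomposition
  have key : ∀ i, ∃ (g k : Lam X) (cf : Finset X →₀ ℤ), (w i = 0 → g = 0 ∧ k = 0 ∧ cf = 0) ∧
      g ∈ gr X j ⊓ LinearMap.ker (ic (x0 i)) ∧
      k ∈ gr X j ⊓ LinearMap.ker (ic (x0 i)) ∧
      (w i).1 = (bR (a i) g - g) + q • k + LL κ cf ∧
      (∀ s, cf s ≠ 0 → a i • s = s ∧ x0 i ∉ s ∧ (s.card : ℤ) = j) := by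
    intro i
    by_cases h0 : w i = 0
    · refine ⟨0, 0, 0, fun _ => ⟨rfl, rfl, rfl⟩, Submodule.zero_mem _, Submodule.zero_mem _, ?_, ?_⟩
      · rw [h0]; simp
      · intro s hs; exact absurd rfl hs
    · obtain ⟨g, k, cf, hg, hk, he, hcf⟩ := decomp H hq w hw1 h1 U h2 i (hw i).1.1
      exact ⟨g, k, cf, fun h => absurd h h0, hg, hk, he, hcf⟩
  choose g k cf h0 hg hk he hcf using key
  have key2 : ∀ i, ∃ m2 : Lam X, (w i = 0 → m2 = 0) ∧ (w i).2 = q • m2 ∧
      m2 ∈ gr X (j - 1) ⊓ LinearMap.ker (ic (x0 i)) := by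
    intro i
    by_cases h0 : w i = 0
    · exact ⟨0, fun _ => rfl, by rw [h0]; simp, Submodule.zero_mem _⟩
    · obtain ⟨v', hv', hv2⟩ := div_lam κ hq (w i).2 (second_zero H hq w hw1 hw2 h1 U h2 i)
      exact ⟨v', fun h => absurd h h0, hv', hv2 _ _ (hw i).2⟩
  choose m2 hm0 hm hm3 using key2
  -- the fixed sets
  have hth1 : th1 (fun i => ew (x0 i)) w = - ∑ i ∈ w.support, ew (x0 i) (w i).1 := by
    simp [th1, Finsupp.sum]
  have hsum : ∑ i ∈ w.support, orbSum κ (ew (x0 i) (LL κ (cf i))) =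
      q • (- orbSum κ y - ∑ i ∈ w.support, orbSum κ (ew (x0 i) (k i))) := by
    have h4 := congrArg (orbSum κ) h3
    rw [map_add, orbSum_del (hodd H) (hact H), zero_add, hth1, map_neg, map_sum, map_smul] at h4
    have h5 : ∀ i ∈ w.support, orbSum κ (ew (x0 i) (w i).1) =
        q • orbSum κ (ew (x0 i) (k i)) + orbSum κ (ew (x0 i) (LL κ (cf i))) := by
      intro i _
      rw [he i, map_add, map_add, map_add, map_add, map_sub, map_sub, ← H.totOK_b.Rh,
        orbSum_bR (hodd H) (hact H), sub_self, zero_add, map_smul, map_smul]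
    rw [Finset.sum_congr rfl h5, Finset.sum_add_distrib, ← Finset.smul_sum] at h4
    rw [smul_sub, smul_neg, ← h4]
    abel
  have hfz : ∀ i s, q ∣ cf i s := by
    intro i s
    by_cases hi : i ∈ w.support
    · exact fix_zero (fun i j s s' => fun e1 e2 e3 e4 f e5 => fixed_unique H e1 e2 e3 e4 f e5)
        w.support cf (fun i s hs => ⟨(hcf i s hs).1, (hcf i s hs).2.1⟩) _ hsum i hi s
    · rw [(h0 i (Finsupp.notMem_support_iff.1 hi)).2.2]
      exact dvd_zero _
  have key3 : ∀ i, ∃ k' : Lam X, (w i = 0 → k' = 0) ∧ LL κ (cf i) = q • k' ∧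
      k' ∈ gr X j ⊓ LinearMap.ker (ic (x0 i)) := by
    intro i
    by_cases h00 : w i = 0
    · refine ⟨0, fun _ => rfl, ?_, Submodule.zero_mem _⟩
      rw [(h0 i h00).2.2]
      simp
    · obtain ⟨v', hv', hv2⟩ := div_lam κ hq (LL κ (cf i)) (by
        intro s
        rw [repr_LL]
        exact hfz i s)
      exact ⟨v', fun h => absurd h h00, hv', hv2 _ _ (LL_mem fun s hs => (hcf i s hs).2)⟩
  choose k' hk0 hk1 hk2 using key3
  refine ⟨Finsupp.onFinset w.support (fun i => (0, g i)) ?_,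
    Finsupp.onFinset w.support (fun i => (k i + k' i, m2 i)) ?_, ?_, ?_⟩
  · intro i hi
    rw [Finsupp.mem_support_iff]
    intro h
    apply hi
    rw [(h0 i h).1]
    rfl
  · intro i hi
    rw [Finsupp.mem_support_iff]
    intro h
    apply hi
    rw [(h0 i h).2.1, hk0 i h, hm0 i h, add_zero]
    rfl
  · intro i
    exact ⟨Submodule.add_mem _ (hk i) (hk2 i), hm3 i⟩
  · ext i : 1
    rw [Finsupp.add_apply, facesd_apply, Finsupp.smul_apply]
    simp only [Finsupp.onFinset_apply]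
    refine Prod.ext ?_ ?_
    · rw [he i, hk1 i]
      simp only [map_zero, Prod.fst_add, Prod.smul_fst, smul_add, zero_add]
      simp
      abel
    · rw [hm i]
      simp

end

theorem tf : TFStatement := by
  intro κ G Q X I _ _ _ φ π t c a x0 p H n _ v hv _ q hq r hr hbd
  classical
  let _ : LinearOrder X := linearOrderOfSTO WellOrderingRel
  obtain ⟨k, u, w⟩ := r
  obtain ⟨hk, hu, hw⟩ := hr
  have hbd' := hbd
  unfold bd at hbd'
  rw [totd_apply] at hbd'
  have e1 : del bR u + th1 (fun i => ew (x0 i)) w = q • v.1 := by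
    have := congrArg Prod.fst hbd'
    simpa using this
  have e2 : th2 bR (fun i => ew (x0 i)) a p w = q • v.2.1 := by
    have := congrArg (fun z => z.2.1) hbd'
    simp only at this
    rw [← Prod.smul_fst, ← Prod.smul_snd, ← this]
    have h0 : Finsupp.mapRange.linearMap (0 : Lam X →ₗ[ℤ] Lam X) u = 0 := by
      ext s
      simp
    rw [h0, neg_zero, zero_add]
  have e3 : facesd 0 bR a w = q • v.2.2 := by
    have := congrArg (fun z => z.2.2) hbd'
    exact this
  have h1 : ∀ i, ∃ e : Lam X, bR (a i) (w i).2 - (w i).2 = q • e := by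
    intro i
    refine ⟨(v.2.2 i).1, ?_⟩
    have h4 := congrArg (fun z : I →₀ (Lam X × Lam X) => (z i).1) e3
    simp only [facesd_apply] at h4
    simpa using h4
  have hw' : ∀ i, (w i).1 ∈ gr X (n - 1) ⊓ LinearMap.ker (ic (x0 i)) ∧
      (w i).2 ∈ gr X (n - 1 - 1) ⊓ LinearMap.ker (ic (x0 i)) := by
    intro i
    have := hw i
    rw [show n + 1 - 2 = n - 1 by ring, show n + 1 - 3 = n - 1 - 1 by ring] at this
    exact this
  obtain ⟨w', w'', hw2, he⟩ := faces_decomp H hq w hw' h1 _ e2 u _ e1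
  have hm2 : ((0, 0, w'') : Tot κ I (Lam X)) ∈ bgr κ x0 (n + 1) := by
    refine ⟨Submodule.zero_mem _, fun s => Submodule.zero_mem _, fun i => ?_⟩
    have := hw2 i
    rw [show n + 1 - 2 = n - 1 by ring, show n + 1 - 3 = n - 1 - 1 by ring]
    exact this
  set V : Tot κ I (Lam X) := v - bd a x0 p (0, 0, w'') with hV
  have hVm : V ∈ bgr κ x0 n := by
    refine Submodule.sub_mem _ hv ?_
    have := H.bd_mem hm2
    rwa [show n + 1 - 1 = n by ring] at this
  set r' : Tot κ I (Lam X) := (k, u, w) - bd a x0 p (0, 0, w') - q • (0, 0, w'') with hr'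
  have hbr : bd a x0 p r' = q • V := by
    rw [hr', map_sub, map_sub, H.bd_bd, sub_zero, hbd, map_smul, hV, smul_sub]
  have hr2 : r'.2.2 = 0 := by
    rw [hr']
    have h5 : (bd a x0 p ((0, 0, w') : Tot κ I (Lam X))).2.2 = facesd 0 bR a w' := rfl
    simp only [Prod.snd_sub, h5, Prod.smul_snd]
    rw [he]
    abel
  obtain ⟨k1, u1, w1⟩ := r'
  have hw1 : w1 = 0 := hr2
  subst hw1
  unfold bd at hbr
  rw [totd_apply] at hbr
  have f1 : del bR u1 = q • V.1 := by
    have := congrArg Prod.fst hbr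
    simpa using this
  have f2 : V.2.1 = 0 := by
    have h6 := congrArg (fun z => z.2.1) hbr
    simp only at h6
    have h0 : Finsupp.mapRange.linearMap (0 : Lam X →ₗ[ℤ] Lam X) u1 = 0 := by
      ext s
      simp
    rw [h0, neg_zero, map_zero, add_zero] at h6
    ext s : 1
    have h7 := congrArg (fun z : κ →₀ Lam X => z s) h6
    exact lam_smul_eq_zero hq h7.symm
  have f3 : V.2.2 = 0 := by
    have h6 := congrArg (fun z => z.2.2) hbr
    simp only [map_zero] at h6
    ext i : 1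
    have h7 := congrArg (fun z : I →₀ (Lam X × Lam X) => z i) h6
    exact Prod.ext (lam_smul_eq_zero hq (congrArg Prod.fst h7).symm)
      (lam_smul_eq_zero hq (congrArg Prod.snd h7).symm)
  obtain ⟨u2, hu2, hd2⟩ := del_torsion (hodd H) (hact H) hVm.1 hq u1 f1
  refine ⟨(0, u2, w''), ?_, ?_⟩
  · refine ⟨Submodule.zero_mem _, fun s => ?_, hm2.2.2⟩
    rw [show n + 1 - 1 = n by ring]
    exact hu2 s
  · have h8 : ((0, u2, w'') : Tot κ I (Lam X)) = (0, u2, 0) + (0, 0, w'') := by simp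
    have h9 : bd a x0 p ((0, u2, 0) : Tot κ I (Lam X)) = V := by
      unfold bd
      rw [totd_apply]
      have h0 : Finsupp.mapRange.linearMap (0 : Lam X →ₗ[ℤ] Lam X) u2 = 0 := by
        ext s
        simp
      refine Prod.ext ?_ (Prod.ext ?_ ?_)
      · simp [hd2]
      · simp only [h0, f2, map_zero, neg_zero, add_zero]
      · simp only [f3, map_zero]
    rw [h8, map_add, h9, hV]
    abel

end W3ab0ed.TF
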