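import Pool.Agent.W_MP_3ab0ed_h30.TFCore

/-!
Homology part of MP_3ab0ed_al.  Torsion-freeness of the homology of the complex of coinvariants.
-/

namespace W3ab0ed.TF

open Finsupp Module
open scoped Pointwise

set_option linter.unusedSectionVars false

variable {κ G Q X I : Type} [Group G] [Group Q] [LinearOrder X] [MulAction (FreeGroup κ) X]
  {φ : FreeGroup κ →* G} {π : G →* Q} {t : X → G} {c : G → (X →₀ ℤ)}
  {a : I → FreeGroup κ} {x0 : I → X} {p : ℕ}

/-- The element with given coordinates. -/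
noncomputable def LL (κ : Type) {X : Type} [LinearOrder X] [MulAction (FreeGroup κ) X] :
    (Finset X →₀ ℤ) ≃ₗ[ℤ] Lam X := (fb κ X).repr.symm

theorem repr_LL (f : Finset X →₀ ℤ) : (fb κ X).repr (LL κ f) = f := by
  simp [LL]

theorem LL_repr (v : Lam X) : LL κ ((fb κ X).repr v) = v := by
  simp [LL]

theorem bR_LL {p : ℕ} (hp : Odd p) (hact : ∀ (g : FreeGroup κ) (x : X), (g ^ p) • x = x)
    (g : FreeGroup κ) (f : Finset X →₀ ℤ) :
    bR g⁻¹ (LL κ f) = LL κ (Finsupp.mapDomain (MulAction.toPerm g) f) := by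
  apply (fb κ X).repr.injective
  ext s
  rw [repr_bR hp hact, repr_LL, repr_LL, mapDomain_perm_apply]
  rfl

theorem LL_mem {j : ℤ} {x : X} {f : Finset X →₀ ℤ}
    (h : ∀ s, f s ≠ 0 → x ∉ s ∧ (s.card : ℤ) = j) :
    LL κ f ∈ gr X j ⊓ LinearMap.ker (ic x) := by
  refine ⟨(mem_gr_iff κ).2 fun s hs => ?_, (mem_ker_ic_iff κ).2 fun s hs => ?_⟩
  · rw [repr_LL] at hs; exact (h s hs).2
  · rw [repr_LL] at hs; exact (h s hs).1

theorem apow_smul' (H : Good φ π t c a x0 p) (i : I) (s : Finset X) : (a i ^ p) • s = s := by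
  have : (a i ^ p) • s = (1 : FreeGroup κ) • s := by
    apply act_eq' H
    simp [H.exp]
  rw [this, one_smul]

theorem toPerm_pow (H : Good φ π t c a x0 p) (i : I) :
    (MulAction.toPerm (a i) : Equiv.Perm (Finset X)) ^ p = 1 := by
  have h : ∀ n : ℕ, (MulAction.toPerm (a i) : Equiv.Perm (Finset X)) ^ n =
      MulAction.toPerm (a i ^ n) := by
    intro n
    exact (map_pow (MulAction.toPermHom (FreeGroup κ) (Finset X)) (a i) n).symm
  rw [h]
  ext1 s
  exact apow_smul' H i s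

theorem toPerm_pow_apply (i : I) (l : ℕ) (s : Finset X) :
    ((MulAction.toPerm (a i) : Equiv.Perm (Finset X)) ^ l) s = (a i ^ l) • s := by
  have h : (MulAction.toPerm (a i) : Equiv.Perm (Finset X)) ^ l =
      MulAction.toPerm (a i ^ l) :=
    (map_pow (MulAction.toPermHom (FreeGroup κ) (Finset X)) (a i) l).symm
  rw [h]
  rfl

theorem decomp (H : Good φ π t c a x0 p) {q : ℤ} (hq : q ≠ 0) (w : I →₀ (Lam X × Lam X))
    (hw1 : ∀ i, (w i).1 ∈ LinearMap.ker (ic (x0 i)))
    (h1 : ∀ i, ∃ e : Lam X, bR (a i) (w i).2 - (w i).2 = q • e)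
    (U : κ →₀ Lam X) (h2 : th2 bR (fun i => ew (x0 i)) a p w = q • U) (i : I) {j : ℤ}
    (hg : (w i).1 ∈ gr X j) :
    ∃ (g k : Lam X) (cf : Finset X →₀ ℤ), g ∈ gr X j ⊓ LinearMap.ker (ic (x0 i)) ∧
      k ∈ gr X j ⊓ LinearMap.ker (ic (x0 i)) ∧
      (w i).1 = (bR (a i) g - g) + q • k + LL κ cf ∧
      (∀ s, cf s ≠ 0 → a i • s = s ∧ x0 i ∉ s ∧ (s.card : ℤ) = j) := by
  classical
  let σ : Equiv.Perm (Finset X) := MulAction.toPerm (a i)
  let cw := (fb κ X).repr (w i).1
  let cf := cw.filter (fun s => a i • s = s)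
  let cn := cw.filter (fun s => ¬ (a i • s = s))
  have hcw : cf + cn = cw := Finsupp.filter_add_filter_not cw _
  let P : Finset X → Prop := fun s => x0 i ∉ s ∧ (s.card : ℤ) = j
  have hP : ∀ s, cw s ≠ 0 → P s := fun s hs =>
    ⟨(mem_ker_ic_iff κ).1 (hw1 i) s hs, (mem_gr_iff κ).1 hg s hs⟩
  have hPs : ∀ s, P (σ⁻¹ s) ↔ P s := by
    intro s
    have h3 : σ⁻¹ s = (a i)⁻¹ • s := rfl
    rw [h3]
    constructor
    · rintro ⟨h4, h5⟩
      refine ⟨fun h6 => h4 ?_, by rw [Finset.card_smul_finset] at h5; exact h5⟩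
      have := Finset.smul_mem_smul_finset (a := (a i)⁻¹) h6
      rwa [H.ainv] at this
    · rintro ⟨h4, h5⟩
      refine ⟨fun h6 => h4 ?_, by rw [Finset.card_smul_finset]; exact h5⟩
      have := Finset.smul_mem_smul_finset (a := a i) h6
      rwa [H.afix, smul_inv_smul] at this
  obtain ⟨c', c'', hc⟩ := coinv_mod H.prime σ (toPerm_pow H i) q cn (by
    intro y hy
    exact Finsupp.filter_apply_neg _ _ (fun h => h hy)) (by
    intro y hy
    have hy' : ¬ (a i • y = y) := hy
    have hne : y.Nonempty := by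
      rw [Finset.nonempty_iff_ne_empty]
      rintro rfl
      exact hy' (Finset.smul_finset_empty _)
    have h3 := first_orb H hq w hw1 h1 U h2 i y hne
    refine (congrArg (fun z => q ∣ z) (Finset.sum_congr rfl fun l _ => ?_)).mp h3
    rw [toPerm_pow_apply]
    refine (Finsupp.filter_apply_pos _ _ ?_).symm
    intro h4
    apply hy'
    rw [← mul_smul, ← pow_succ', pow_succ, mul_smul] at h4
    exact smul_left_cancel _ h4)
  have hc2 : cn = Finsupp.mapDomain σ (c'.filter P) - c'.filter P + q • c''.filter P := by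
    ext s
    rw [Finsupp.add_apply, Finsupp.sub_apply, Finsupp.smul_apply, mapDomain_perm_apply]
    by_cases hs : P s
    · rw [Finsupp.filter_apply_pos _ _ ((hPs s).2 hs), Finsupp.filter_apply_pos _ _ hs,
        Finsupp.filter_apply_pos _ _ hs, hc, Finsupp.add_apply, Finsupp.sub_apply,
        Finsupp.smul_apply, mapDomain_perm_apply]
    · rw [Finsupp.filter_apply_neg _ _ (fun h => hs ((hPs s).1 h)),
        Finsupp.filter_apply_neg _ _ hs, Finsupp.filter_apply_neg _ _ hs]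
      have h3 : cw s = 0 := by
        by_contra h0
        exact hs (hP s h0)
      have h4 : cn s = 0 := by
        by_cases h5 : ¬ (a i • s = s)
        · exact (Finsupp.filter_apply_pos (fun s => ¬ (a i • s = s)) cw h5).trans h3
        · exact Finsupp.filter_apply_neg (fun s => ¬ (a i • s = s)) cw h5
      rw [h4]
      simp
  have hm1 : LL κ (c'.filter P) ∈ gr X j ⊓ LinearMap.ker (ic (x0 i)) := by
    apply LL_mem
    intro s hs
    by_contra h3
    exact hs (Finsupp.filter_apply_neg _ _ h3)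
  refine ⟨- bR (a i)⁻¹ (LL κ (c'.filter P)), LL κ (c''.filter P), cf, ?_, ?_, ?_, ?_⟩
  · refine Submodule.neg_mem _ ⟨bR_mem _ hm1.1, ?_⟩
    have h3 := bR_ic (a i)⁻¹ (x0 i) (LL κ (c'.filter P))
    rw [inv_inv, H.afix, LinearMap.mem_ker.1 hm1.2, map_zero] at h3
    exact LinearMap.mem_ker.2 h3.symm
  · apply LL_mem
    intro s hs
    by_contra h3
    exact hs (Finsupp.filter_apply_neg _ _ h3)
  · have h3 : (w i).1 = LL κ cf + LL κ cn := by
      rw [← map_add, hcw, LL_repr]
    rw [h3, hc2, map_add, map_sub, map_smul, ← bR_LL (hodd H) (hact H), map_neg, ← bR_mul,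
      inv_mul_cancel, bR_one]
    abel
  · intro s hs
    have h3 : a i • s = s := by
      by_contra h3
      exact hs (Finsupp.filter_apply_neg _ _ h3)
    have h4 : cf s = cw s := Finsupp.filter_apply_pos _ _ h3
    rw [h4] at hs
    exact ⟨h3, hP s hs⟩

theorem ew_LL (x : X) (f : Finset X →₀ ℤ) (hf : ∀ s, f s ≠ 0 → x ∉ s) :
    orbSum κ (ew x (LL κ f)) =
      f.sum (fun s n => (n * eta κ x s) • Finsupp.single (rep κ (insert x s)) 1) := by
  have h1 : LL κ f = f.sum (fun s n => n • fb κ X s) := by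
    unfold LL
    rw [Basis.repr_symm_apply, Finsupp.linearCombination_apply]
  rw [h1, map_finsuppSum, map_finsuppSum]
  refine Finsupp.sum_congr fun s hs => ?_
  rw [map_smul, map_smul, ew_fb (hf s (Finsupp.mem_support_iff.1 hs)), map_smul, orbSum_fb,
    smul_smul]

theorem exists_smul_of_rep {s s' : Finset X} (h : rep κ s = rep κ s') :
    ∃ f : FreeGroup κ, f • s = s' := by
  obtain ⟨g, hg⟩ := exists_rep (κ := κ) s
  obtain ⟨g', hg'⟩ := exists_rep (κ := κ) s'
  refine ⟨g'⁻¹ * g, ?_⟩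
  rw [mul_smul, ← hg', ← h, ← inv_smul_eq_iff.1 hg]

/-- The fixed sets. -/
theorem fix_zero
    (FU : ∀ (i j : I) (s s' : Finset X), x0 i ∉ s → x0 j ∉ s' → a i • s = s → a j • s' = s' →
      ∀ f : FreeGroup κ, f • insert (x0 i) s = insert (x0 j) s' → i = j ∧ s = s')
    {q : ℤ} (D : Finset I) (cf : I → Finset X →₀ ℤ)
    (hcf : ∀ i s, cf i s ≠ 0 → a i • s = s ∧ x0 i ∉ s) (Z : Finset X →₀ ℤ)
    (h : ∑ i ∈ D, orbSum κ (ew (x0 i) (LL κ (cf i))) = q • Z) (i : I) (hi : i ∈ D)
    (s : Finset X) : q ∣ cf i s := by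
  classical
  by_cases h0 : cf i s = 0
  · rw [h0]; exact dvd_zero _
  obtain ⟨hfix, hx⟩ := hcf i s h0
  have h1 := congrArg (fun f : Finset X →₀ ℤ => f (rep κ (insert (x0 i) s))) h
  simp only [Finsupp.finsetSum_apply, Finsupp.smul_apply, smul_eq_mul] at h1
  rw [Finset.sum_eq_single i] at h1
  · rw [ew_LL _ _ (fun s hs => (hcf i s hs).2), Finsupp.sum, Finsupp.finsetSum_apply,
      Finset.sum_eq_single s] at h1
    · rw [Finsupp.smul_apply, Finsupp.single_eq_same, smul_eq_mul, mul_one] at h1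
      rcases eta_eq (κ := κ) hx with h4 | h4 <;> rw [h4] at h1
      · rw [mul_one] at h1
        exact ⟨_, h1⟩
      · rw [mul_neg_one] at h1
        exact (dvd_neg).1 ⟨_, h1⟩
    · intro s' hs' hne
      obtain ⟨hfix', hx'⟩ := hcf i s' (Finsupp.mem_support_iff.1 hs')
      rw [Finsupp.smul_apply, Finsupp.single_eq_of_ne, smul_zero]
      intro hr
      obtain ⟨f, hf⟩ := exists_smul_of_rep hr
      exact hne (FU i i s s' hx hx' hfix hfix' f hf).2.symm
    · intro hns
      exact absurd (Finsupp.mem_support_iff.2 h0) hns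
  · intro i' _ hne
    rw [ew_LL _ _ (fun s hs => (hcf i' s hs).2), Finsupp.sum, Finsupp.finsetSum_apply]
    apply Finset.sum_eq_zero
    intro s' hs'
    obtain ⟨hfix', hx'⟩ := hcf i' s' (Finsupp.mem_support_iff.1 hs')
    rw [Finsupp.smul_apply, Finsupp.single_eq_of_ne, smul_zero]
    intro hr
    obtain ⟨f, hf⟩ := exists_smul_of_rep hr
    exact hne (FU i i' s s' hx hx' hfix hfix' f hf).1.symm
  · intro hni
    exact absurd hi hni

end W3ab0ed.TF
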