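import Pool.Agent.W_MP_3ab0ed_h30.SStep

/-!
Burnside part, piece P4 (proofs row 77, section 4.2): the local part of (T) for the quotient
action, for an abstract rotation family with the facts (A1) and (A4).
-/

namespace Burn

namespace RotFam

variable {G Z Γ : Type*} [Group G] [MulAction G Z] [MulAction G Γ]
  {ρ : Z → Z → ℕ} {δ S Th T : ℕ} {F : RotFam G Z Γ ρ δ S Th T}

theorem rho_pow_le (F : RotFam G Z Γ ρ δ S Th T) (g : G) (z : Z) (m : ℕ) : ρ z (g ^ m • z) ≤ m * ρ z (g • z) := by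
  induction m with
  | zero => simp [F.geo.self]
  | succ m ih =>
    have t := F.geo.tri z (g ^ m • z) (g ^ (m + 1) • z)
    have e : g ^ (m + 1) • z = g ^ m • g • z := by rw [pow_succ, mul_smul]
    rw [e, F.inv] at t
    rw [e]
    have e2 : (m + 1) * ρ z (g • z) = m * ρ z (g • z) + ρ z (g • z) := by ring
    omega

/-- the power of an element which fixes an apex up to `K` -/
theorem pow_mem_of_fix {n : ℕ} {c : Z} {a : G}
    (ha : ∀ g : G, g • c = c → g ∈ Subgroup.zpowers a) (han : a ^ n ∈ KA F)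
    {g : G} (hg : ∃ k ∈ KA F, (k * g) • c = c) : g ^ n ∈ KA F := by
  obtain ⟨k, hk, h1⟩ := hg
  obtain ⟨i, hi⟩ := Subgroup.mem_zpowers_iff.1 (ha _ h1)
  have h2 : (k * g) ^ n ∈ KA F := by
    rw [← hi, ← zpow_natCast, ← zpow_mul, mul_comm, zpow_mul, zpow_natCast]
    exact Subgroup.zpow_mem _ han i
  have := KA_normal F
  rw [← QuotientGroup.eq_one_iff] at h2 ⊢
  have e1 : (QuotientGroup.mk k : G ⧸ KA F) = 1 := (QuotientGroup.eq_one_iff k).2 hk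
  rw [QuotientGroup.mk_pow, QuotientGroup.mk_mul, e1, one_mul] at h2
  rw [QuotientGroup.mk_pow]
  exact h2

/-- the local part of (T) -/
theorem t_loc {R1 b0 κ1 n m0 : ℕ}
    (hA1 : ∀ (z : Z) (g : G), ρ z (g • z) ≤ b0 → ρ z (g ^ m0 • z) ≤ κ1 →
      g ^ n = 1 ∨ ∃ c ∈ F.V, g • c = c)
    (hA4 : ∀ c ∈ F.V, ∃ a : G, (∀ g : G, g • c = c → g ∈ Subgroup.zpowers a) ∧ a ^ n ∈ KA F)
    (hS : 2 * R1 + b0 < S) (hR : m0 * b0 + κ1 ≤ 2 * R1) (z : Z) (g : G)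
    (h1 : od F z (g • z) ≤ b0) (h2 : od F z (g ^ m0 • z) ≤ κ1) : g ^ n ∈ KA F := by
  have := KA_normal F
  by_cases hc : ∃ c ∈ F.V, od F z c ≤ R1
  · obtain ⟨c, hc, hzc⟩ := hc
    obtain ⟨a, ha, han⟩ := hA4 c hc
    exact pow_mem_of_fix ha han (upL1 hc hzc h1 hS)
  push Not at hc
  obtain ⟨g1, e1, h3⟩ := lift_at z g h1
  have e2 : qmk F (g1 ^ m0 • z) = qmk F (g ^ m0 • z) := by
    rw [← mk_smul_qmk, ← mk_smul_qmk, QuotientGroup.mk_pow, QuotientGroup.mk_pow, e1]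
  have h4 : od F z (g1 ^ m0 • z) ≤ κ1 := by
    rw [← qd_mk, e2, qd_mk]; exact h2
  obtain ⟨k, hk, h5⟩ := od_spec (F := F) z (g1 ^ m0 • z)
  have hy : ∀ c ∈ F.V, R1 < ρ (g1 ^ m0 • z) c := by
    intro c hcV
    have h6 := hc ((g1 ^ m0)⁻¹ • c) (F.V_smul _ _ hcV)
    have h8 : od F z ((g1 ^ m0)⁻¹ • c) ≤ ρ z ((g1 ^ m0)⁻¹ • c) := od_le' _ _
    have h9 : ρ z ((g1 ^ m0)⁻¹ • c) = ρ (g1 ^ m0 • z) c := by
      rw [← F.inv (g1 ^ m0) z, smul_inv_smul]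
    omega
  have h6 := rho_pow_le F g1 z m0
  have h7 : m0 * ρ z (g1 • z) ≤ m0 * b0 := Nat.mul_le_mul_left _ h3
  have h8 := F.geo.tri (g1 ^ m0 • z) z (k • g1 ^ m0 • z)
  have h9 := F.geo.symm (g1 ^ m0 • z) z
  have hk1 : k = 1 := upL2 hy hk (by omega)
  rw [hk1, one_smul] at h5
  have hg1 : g1 ^ n ∈ KA F := by
    rcases hA1 z g1 h3 (by omega) with h10 | ⟨c, hcV, h10⟩
    · rw [h10]; exact Subgroup.one_mem _
    · obtain ⟨a, ha, han⟩ := hA4 c hcV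
      exact pow_mem_of_fix ha han ⟨1, Subgroup.one_mem _, by rw [one_mul]; exact h10⟩
  rw [← QuotientGroup.eq_one_iff] at hg1 ⊢
  rw [QuotientGroup.mk_pow] at hg1 ⊢
  rw [← e1]; exact hg1

end RotFam

end Burn
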