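import Pool.Agent.W_MP_3ab0ed_h30.FGrad
import Pool.Agent.W_MP_3ab0ed_h30.PermLem

/-!
Homology part of MP_3ab0ed_al.  The transfer to the group ring of `Q` and the injectivity of the
second component of the connecting map modulo an integer.
-/

namespace W3ab0ed.TF

open Finsupp Module
open scoped Pointwise

set_option linter.unusedSectionVars false

variable {κ G Q X I : Type} [Group G] [Group Q] [LinearOrder X] [MulAction (FreeGroup κ) X]
  {φ : FreeGroup κ →* G} {π : G →* Q} {t : X → G} {c : G → (X →₀ ℤ)}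
  {a : I → FreeGroup κ} {x0 : I → X} {p : ℕ}

theorem hodd (H : Good φ π t c a x0 p) : Odd p := H.prime.odd_of_ne_two H.odd

theorem hact (H : Good φ π t c a x0 p) (g : FreeGroup κ) (x : X) : (g ^ p) • x = x :=
  H.act_triv _ _ (by rw [map_pow, map_pow, H.exp])

theorem psurj (H : Good φ π t c a x0 p) : Function.Surjective fun f => π (φ f) :=
  H.pi_surj.comp H.phi_surj

/-- A lift to the free group. -/
noncomputable def lft (H : Good φ π t c a x0 p) (q : Q) : FreeGroup κ := (psurj H q).choose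

theorem lft_spec (H : Good φ π t c a x0 p) (q : Q) : π (φ (lft H q)) = q :=
  (psurj H q).choose_spec

theorem act_eq (H : Good φ π t c a x0 p) {f g : FreeGroup κ} (h : π (φ f) = π (φ g)) (x : X) :
    f • x = g • x := by
  rw [← inv_smul_eq_iff, ← mul_smul]
  apply H.act_triv
  rw [map_mul, map_mul, map_inv, map_inv, h, inv_mul_cancel]

theorem act_eq' (H : Good φ π t c a x0 p) {f g : FreeGroup κ} (h : π (φ f) = π (φ g))
    (s : Finset X) : f • s = g • s := by
  change s.image (fun x => f • x) = s.image (fun x => g • x)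
  congr 1
  ext x
  exact act_eq H h x

theorem fin_trans (H : Good φ π t c a x0 p) (x y : X) : {q : Q | lft H q • x = y}.Finite := by
  obtain ⟨i, f, rfl⟩ := H.orb x
  by_cases hne : {q : Q | lft H q • f • x0 i = y}.Nonempty
  · obtain ⟨q0, hq0⟩ := hne
    have hq0' : lft H q0 • f • x0 i = y := hq0
    apply ((Set.finite_lt_nat p).image (fun k : ℕ =>
      q0 * π (φ f) * π (φ (a i)) ^ k * (π (φ f))⁻¹)).subset
    intro q hq
    have hq' : lft H q • f • x0 i = y := hq
    have h1 : (f⁻¹ * (lft H q0)⁻¹ * lft H q * f) • x0 i = x0 i := by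
      rw [mul_smul, mul_smul, hq', ← hq0', mul_smul, inv_smul_smul, inv_smul_smul]
    obtain ⟨k, hk⟩ := H.stab i _ h1
    refine ⟨k % p, Nat.mod_lt _ H.prime.pos, ?_⟩
    change q0 * π (φ f) * π (φ (a i)) ^ (k % p) * (π (φ f))⁻¹ = q
    have h2 : π (φ (a i)) ^ (k % p) = π (φ (a i)) ^ k := by
      conv_rhs => rw [← Nat.mod_add_div k p, pow_add, pow_mul, H.exp, one_pow, mul_one]
    rw [h2, ← hk]
    simp only [map_mul, map_inv, lft_spec]
    group
  · rw [Set.not_nonempty_iff_eq_empty.1 hne]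
    exact Set.finite_empty

theorem fin_trans' (H : Good φ π t c a x0 p) {y : Finset X} (hy : y.Nonempty) (s : Finset X) :
    {q : Q | (lft H q)⁻¹ • y = s}.Finite := by
  obtain ⟨x, hx⟩ := hy
  apply (Set.Finite.biUnion s.finite_toSet (fun x' _ => fin_trans H x' x)).subset
  intro q hq
  have hq' : (lft H q)⁻¹ • y = s := hq
  simp only [Set.mem_iUnion, Finset.mem_coe, Set.mem_ofPred_eq]
  refine ⟨(lft H q)⁻¹ • x, ?_, by rw [smul_inv_smul]⟩
  rw [← hq']
  exact Finset.smul_mem_smul_finset hx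

theorem fin_tr (H : Good φ π t c a x0 p) {y : Finset X} (hy : y.Nonempty) (v : Lam X) :
    (Function.support fun q : Q => (fb κ X).repr v ((lft H q)⁻¹ • y)).Finite := by
  apply (Set.Finite.biUnion ((fb κ X).repr v).support.finite_toSet
    (fun s _ => fin_trans' H hy s)).subset
  intro q hq
  simp only [Set.mem_iUnion, Finset.mem_coe, Set.mem_ofPred_eq, Finsupp.mem_support_iff]
  exact ⟨_, hq, rfl⟩

/-- The transfer. -/
noncomputable def Tr (H : Good φ π t c a x0 p) {y : Finset X} (hy : y.Nonempty) :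
    Lam X →ₗ[ℤ] (Q →₀ ℤ) where
  toFun v := Finsupp.ofSupportFinite (fun q => (fb κ X).repr v ((lft H q)⁻¹ • y)) (fin_tr H hy v)
  map_add' v w := by
    ext q
    simp [Finsupp.ofSupportFinite_coe]
  map_smul' n v := by
    ext q
    change (fb κ X).repr (n • v) ((lft H q)⁻¹ • y) = n * (fb κ X).repr v ((lft H q)⁻¹ • y)
    have h1 : (fb κ X).repr (n • v) = n • (fb κ X).repr v := (fb κ X).repr.map_smul n v
    rw [h1]
    rfl

theorem Tr_apply (H : Good φ π t c a x0 p) {y : Finset X} (hy : y.Nonempty) (v : Lam X) (q : Q) :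
    Tr H hy v q = (fb κ X).repr v ((lft H q)⁻¹ • y) := rfl

theorem RQ_eq (φ : FreeGroup κ →* G) (π : G →* Q) (f : FreeGroup κ) (z : Q →₀ ℤ) :
    RQ φ π f z = Finsupp.mapDomain (Equiv.mulRight (π (φ f))) z := rfl

theorem RQ_apply (φ : FreeGroup κ →* G) (π : G →* Q) (f : FreeGroup κ) (z : Q →₀ ℤ) (q : Q) :
    RQ φ π f z q = z (q * (π (φ f))⁻¹) := by
  rw [RQ_eq, mapDomain_perm_apply]
  rfl

theorem RQ_one (φ : FreeGroup κ →* G) (π : G →* Q) (z : Q →₀ ℤ) : RQ φ π 1 z = z := by
  ext q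
  rw [RQ_apply]
  simp

theorem RQ_mul (φ : FreeGroup κ →* G) (π : G →* Q) (f g : FreeGroup κ) (z : Q →₀ ℤ) :
    RQ φ π (f * g) z = RQ φ π g (RQ φ π f z) := by
  ext q
  rw [RQ_apply, RQ_apply, RQ_apply]
  simp [mul_assoc]

theorem RQ_apow (H : Good φ π t c a x0 p) (i : I) (z : Q →₀ ℤ) : RQ φ π (a i ^ p) z = z := by
  ext q
  rw [RQ_apply]
  simp [H.exp]

theorem Tr_bR (H : Good φ π t c a x0 p) {y : Finset X} (hy : y.Nonempty) (f : FreeGroup κ)
    (v : Lam X) : Tr H hy (bR f v) = RQ φ π f (Tr H hy v) := by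
  ext q
  rw [Tr_apply, repr_bR (hodd H) (hact H), RQ_apply, Tr_apply, ← mul_smul]
  congr 1
  apply act_eq' H
  simp [lft_spec]

theorem del_relM (H : Good φ π t c a x0 p) (z : I →₀ (Q →₀ ℤ)) :
    del (RQ φ π) (relM φ π a p z) = 0 := by
  induction z using Finsupp.induction_linear with
  | zero => simp
  | add u v hu hv => rw [map_add, map_add, hu, hv, add_zero]
  | single i b =>
    have h1 : relM φ π a p (Finsupp.single i b) = PP (RQ φ π) (a i ^ p) b := by simp [relM]
    rw [h1, del_PP _ (RQ_one φ π) (RQ_mul φ π), RQ_apow H, sub_self]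

theorem finsupp_zsmul_inj {α β : Type} {q : ℤ} (hq : q ≠ 0) {z w : α →₀ (β →₀ ℤ)}
    (h : q • z = q • w) : z = w := by
  ext i j
  have h1 := congrArg (fun f : α →₀ (β →₀ ℤ) => f i j) h
  simp only [Finsupp.smul_apply, smul_eq_mul] at h1
  exact mul_left_cancel₀ hq h1

/-- Exactness modulo an integer. -/
theorem relM_mod (H : Good φ π t c a x0 p) {q : ℤ} (hq : q ≠ 0) (z : I →₀ (Q →₀ ℤ))
    (U : κ →₀ (Q →₀ ℤ)) (h : relM φ π a p z = q • U) (i : I) :
    ∃ y e : Q →₀ ℤ, z i = RQ φ π (a i) y - y + q • e := by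
  have h1 : del (RQ φ π) U = 0 := by
    have h2 := del_relM H z
    rw [h, map_smul] at h2
    ext s
    have h3 := congrArg (fun f : Q →₀ ℤ => f s) h2
    simp only [Finsupp.smul_apply, Finsupp.zero_apply, smul_eq_mul] at h3
    rcases mul_eq_zero.1 h3 with h4 | h4
    · exact absurd h4 hq
    · exact h4
  obtain ⟨z', hz'⟩ := H.exact1 U h1
  obtain ⟨y, hy⟩ := H.exact2 (z - q • z') (by rw [map_sub, map_smul, hz', h, sub_self]) i
  refine ⟨y, z' i, ?_⟩
  rw [hy, Finsupp.sub_apply, Finsupp.smul_apply]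
  abel

/-- The norm operator of `a i` on the group ring. -/
theorem norm_RQ_sub (H : Good φ π t c a x0 p) (i : I) (y : Q →₀ ℤ) :
    ∑ l ∈ Finset.range p, RQ φ π (a i ^ l) (RQ φ π (a i) y - y) = 0 := by
  have h1 : ∀ n : ℕ, ∑ l ∈ Finset.range n, RQ φ π (a i ^ l) (RQ φ π (a i) y - y) =
      RQ φ π (a i ^ n) y - y := by
    intro n
    induction n with
    | zero => simp [RQ_one]
    | succ n ih =>
      rw [Finset.sum_range_succ, ih, map_sub, ← RQ_mul, ← pow_succ']
      abel
  rw [h1, RQ_apow H, sub_self]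

theorem mulRight_pow (h : Q) (l : ℕ) : Equiv.mulRight h ^ l = Equiv.mulRight (h ^ l) := by
  induction l with
  | zero => ext q; simp
  | succ l ih =>
    ext q
    rw [pow_succ, Equiv.Perm.mul_apply, ih]
    simp [pow_succ', mul_assoc]

/-- The main injectivity modulo an integer, on the group ring. -/
theorem ring_inj (H : Good φ π t c a x0 p) {q : ℤ} (hq : q ≠ 0) (r : I →₀ (Q →₀ ℤ))
    (hr : ∀ i, ∃ e : Q →₀ ℤ, RQ φ π (a i) (r i) - r i = q • e)
    (U : κ →₀ (Q →₀ ℤ)) (h : r.sum (fun i v => PP (RQ φ π) (a i) v) = q • U) (i : I) :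
    ∃ e : Q →₀ ℤ, r i = q • e := by
  classical
  have key : ∀ i, ∃ s t' : Q →₀ ℤ, (r i = 0 → s = 0 ∧ t' = 0) ∧
      r i = ∑ l ∈ Finset.range p, RQ φ π (a i ^ l) s + q • t' := by
    intro i
    by_cases h0 : r i = 0
    · exact ⟨0, 0, fun _ => ⟨rfl, rfl⟩, by simp [h0]⟩
    · obtain ⟨e, he⟩ := hr i
      obtain ⟨s, t', hst⟩ := inv_mod H.prime (Equiv.mulRight (π (φ (a i))))
        (by rw [mulRight_pow, H.exp]; ext q; simp)
        (by
          intro y hy
          apply H.ane i
          have : y * π (φ (a i)) = y := hy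
          exact mul_eq_left.1 this) q (r i) e he
      refine ⟨s, t', fun h => absurd h h0, ?_⟩
      rw [hst]
      congr 1
      refine Finset.sum_congr rfl fun l _ => ?_
      rw [mulRight_pow, RQ_eq, map_pow, map_pow]
  choose s t' h0 hst using key
  let S : I →₀ (Q →₀ ℤ) := Finsupp.onFinset r.support s (fun i hi => by
    rw [Finsupp.mem_support_iff]
    intro hr0
    exact hi (h0 i hr0).1)
  let T : I →₀ (Q →₀ ℤ) := Finsupp.onFinset r.support t' (fun i hi => by
    rw [Finsupp.mem_support_iff]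
    intro hr0
    exact hi (h0 i hr0).2)
  have h1 : relM φ π a p S = q • (U - T.sum (fun i v => PP (RQ φ π) (a i) v)) := by
    have h2 : relM φ π a p S = r.support.sum (fun i => PP (RQ φ π) (a i ^ p) (s i)) := by
      have h3 : relM φ π a p S = S.sum (fun i v => PP (RQ φ π) (a i ^ p) v) := by
        simp [relM]
      rw [h3]
      exact Finsupp.onFinset_sum _ (fun i => map_zero _)
    have h4 : T.sum (fun i v => PP (RQ φ π) (a i) v) =
        r.support.sum (fun i => PP (RQ φ π) (a i) (t' i)) :=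
      Finsupp.onFinset_sum _ (fun i => map_zero _)
    rw [smul_sub, ← h, h2, h4, Finsupp.sum, Finset.smul_sum, ← Finset.sum_sub_distrib]
    refine Finset.sum_congr rfl fun i _ => ?_
    rw [PP_pow _ (RQ_mul φ π), ← map_smul, ← map_sub]
    congr 1
    rw [hst i]
    abel
  obtain ⟨y, e, hy⟩ := relM_mod H hq S _ h1 i
  have h5 : S i = s i := rfl
  refine ⟨∑ l ∈ Finset.range p, RQ φ π (a i ^ l) e + t' i, ?_⟩
  rw [hst i, ← h5, hy]
  simp only [map_add, Finset.sum_add_distrib, norm_RQ_sub H, map_smul]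
  rw [← Finset.smul_sum, zero_add, smul_add]

/-- The main injectivity modulo an integer. -/
theorem lam_inj (H : Good φ π t c a x0 p) {q : ℤ} (hq : q ≠ 0) (v : I →₀ Lam X)
    (hv : ∀ i, ∃ e : Lam X, bR (a i) (v i) - v i = q • e)
    (U : κ →₀ Lam X) (h : v.sum (fun i w => PP bR (a i) w) = q • U) (i : I)
    {y : Finset X} (hy : y.Nonempty) : q ∣ (fb κ X).repr (v i) y := by
  have h1 : ∀ (f : FreeGroup κ) (w : Lam X),
      Finsupp.mapRange.linearMap (Tr H hy) (PP bR f w) = PP (RQ φ π) f (Tr H hy w) := by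
    intro f w
    ext s : 1
    exact PP_nat bR (RQ φ π) (Tr H hy) (Tr_bR H hy) f w s
  obtain ⟨e, he⟩ := ring_inj H hq (Finsupp.mapRange.linearMap (Tr H hy) v)
    (by
      intro i
      obtain ⟨e, he⟩ := hv i
      refine ⟨Tr H hy e, ?_⟩
      rw [Finsupp.mapRange.linearMap_apply, Finsupp.mapRange_apply, ← Tr_bR, ← map_sub, he,
        map_smul])
    (Finsupp.mapRange.linearMap (Tr H hy) U)
    (by
      rw [← map_smul, ← h, map_finsuppSum]
      simp only [h1]
      rw [Finsupp.mapRange.linearMap_apply, Finsupp.sum_mapRange_index]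
      intro i
      exact map_zero _) i
  have h2 := congrArg (fun f : Q →₀ ℤ => f 1) he
  simp only [Finsupp.mapRange.linearMap_apply, Finsupp.mapRange_apply, Tr_apply,
    Finsupp.smul_apply, smul_eq_mul] at h2
  have h3 : (lft H 1)⁻¹ • y = y := by
    have h4 : (lft H 1)⁻¹ • y = (1 : FreeGroup κ) • y := by
      apply act_eq' H
      simp [lft_spec]
    rw [h4, one_smul]
  rw [h3] at h2
  exact ⟨_, h2⟩

end W3ab0ed.TF
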