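import Pool.Agent.W_MP_3ab0ed_burn.P3Quot

/-!
Burnside part, piece P4 (proofs row 77, section 3): the lemmas L1, L2, L3 on lifting elements of
the quotient group, for an abstract rotation family.  `od F x y` is the distance of the orbits.
-/

namespace Burn

namespace RotFam

variable {G Z Γ : Type*} [Group G] [MulAction G Z] [MulAction G Γ]
  {ρ : Z → Z → ℕ} {δ S Th T : ℕ} {F : RotFam G Z Γ ρ δ S Th T}

theorem od_symm (x y : Z) : od F x y = od F y x := by
  rw [← qd_mk, ← qd_mk]; exact isGeod_qd.symm _ _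

theorem od_tri (x y z : Z) : od F x z ≤ od F x y + od F y z := by
  rw [← qd_mk, ← qd_mk, ← qd_mk]; exact isGeod_qd.tri _ _ _

theorem od_self (x : Z) : od F x x = 0 := by
  rw [← qd_mk]; exact isGeod_qd.self _

theorem od_le' (x y : Z) : od F x y ≤ ρ x y := by
  have := od_le (F := F) x y (Subgroup.one_mem _)
  rwa [one_smul] at this

/-- L1 : an element moving little a point close to an apex fixes the apex, up to `K` -/
theorem upL1 {c z : Z} (hc : c ∈ F.V) {g : G} {R1 b : ℕ} (h1 : od F z c ≤ R1)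
    (h2 : od F z (g • z) ≤ b) (hS : 2 * R1 + b < S) : ∃ k ∈ KA F, (k * g) • c = c := by
  have t1 := od_tri (F := F) c z (g • c)
  have t2 := od_tri (F := F) z (g • z) (g • c)
  have e1 := od_smul (F := F) g z c
  have e2 := od_symm (F := F) c z
  obtain ⟨k, hk, h3⟩ := od_spec (F := F) c (g • c)
  refine ⟨k, hk, ?_⟩
  rw [mul_smul]
  by_contra hne
  have h4 := F.sep c hc (k • g • c) (F.V_smul _ _ (F.V_smul _ _ hc)) (fun h => hne h.symm)
  omega

/-- L1, two-sided version: a point close to an apex, in terms of `ρ` -/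
theorem upL1' {c z : Z} (hc : c ∈ F.V) {g : G} {R1 b : ℕ} (h1 : ρ z c ≤ R1)
    (h2 : od F z (g • z) ≤ b) (hS : 2 * R1 + b < S) : ∃ k ∈ KA F, (k * g) • c = c :=
  upL1 hc ((od_le' z c).trans h1) h2 hS

/-- L2 : a point far from all apices is moved a lot by every nontrivial element of `K` -/
theorem upL2 {y : Z} {R1 : ℕ} (hy : ∀ c ∈ F.V, R1 < ρ y c) {k : G} (hk : k ∈ KA F)
    (h : ρ y (k • y) ≤ 2 * R1) : k = 1 := by
  by_contra hk1
  rcases greendlinger y hk hk1 with ⟨hV, _⟩ | ⟨c, _, hc, _, _, _, _, hp, _, _⟩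
  · have := hy y hV
    rw [F.geo.self] at this
    omega
  · have h1 := hp.1
    have h2 := hy c hc
    have h3 := hy (k⁻¹ • c) (F.V_smul _ _ hc)
    have h4 : ρ y (k⁻¹ • c) = ρ (k • y) c := by
      rw [← F.inv k, smul_inv_smul]
    have h5 := F.geo.symm (k • y) c
    omega

/-- L3 : lifting along a segment which stays away from the apices -/
theorem upL3 {x y : Z} {R1 b : ℕ}
    (hI : ∀ z, ρ x z + ρ z y = ρ x y → ∀ c ∈ F.V, R1 < ρ z c) (hb : b ≤ R1)
    (hT : 5 * Th ≤ T) {g k : G} (hk : k ∈ KA F) (hx : ρ x (g • x) ≤ b)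
    (hy : ρ y (k • g • y) ≤ b) : k = 1 := by
  by_contra hk1
  have hIx : ∀ c ∈ F.V, R1 < ρ x c := hI x (by rw [F.geo.self]; omega)
  have hIy : ∀ c ∈ F.V, R1 < ρ y c := hI y (by rw [F.geo.self]; omega)
  -- transport to translates
  have tr : ∀ (h : G) (u c : Z), ρ (h • u) c = ρ u (h⁻¹ • c) := by
    intro h u c
    rw [← F.inv h u, smul_inv_smul]
  rcases greendlinger (g • y) hk hk1 with ⟨hV, _⟩ | hGr
  · have h1 := hIy (g⁻¹ • (g • y)) (F.V_smul _ _ hV)
    rw [inv_smul_smul, F.geo.self] at h1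
    omega
  obtain ⟨c, r, hc, hc0, hc4, _, _, _, _, _, hbig⟩ := hGr.angle
  have n1 : g • x ≠ c := by
    intro h
    have h1 := hIx (g⁻¹ • c) (F.V_smul _ _ hc)
    rw [← tr, h, F.geo.self] at h1
    omega
  have n2 : x ≠ c := by
    intro h
    have h1 := hIx c hc
    rw [h, F.geo.self] at h1
    omega
  have n3 : y ≠ c := by
    intro h
    have h1 := hIy c hc
    rw [h, F.geo.self] at h1
    omega
  obtain ⟨y0, hy0⟩ := F.germ_ne c hc _ hc0
  obtain ⟨y1, hy1⟩ := F.germ_ne c hc _ n1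
  obtain ⟨y2, hy2⟩ := F.germ_ne c hc _ n2
  obtain ⟨y3, hy3⟩ := F.germ_ne c hc _ n3
  obtain ⟨y4, hy4⟩ := F.germ_ne c hc _ hc4
  have h04 := hbig y0 hy0 y4 hy4
  have t1 := F.dG_tri y0 y1 y4
  have t2 := F.dG_tri y1 y2 y4
  have t3 := F.dG_tri y2 y3 y4
  have hcase : Th ≤ F.dG y0 y1 ∨ Th ≤ F.dG y1 y2 ∨ Th ≤ F.dG y2 y3 ∨ Th ≤ F.dG y3 y4 := by
    by_contra hcon
    push Not at hcon
    omega
  rcases hcase with h | h | h | h
  · have hp := (F.passing c hc _ hc0 _ n1 y0 hy0 y1 hy1 h).1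
    have h1 := hI (g⁻¹ • c) (by
      have e1 := tr g x c
      have e2 := tr g y c
      have e3 := F.inv g y x
      have e4 := F.geo.symm (g • y) c
      have e5 := F.geo.symm (g • x) c
      have e6 := F.geo.symm y (g⁻¹ • c)
      have e7 := F.geo.symm x y
      omega) (g⁻¹ • c) (F.V_smul _ _ hc)
    rw [F.geo.self] at h1
    omega
  · have hp := (F.passing c hc _ n1 _ n2 y1 hy1 y2 hy2 h).1
    have h1 := hIx c hc
    have e1 := F.geo.symm c x
    have e2 := F.geo.symm (g • x) x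
    omega
  · have hp := (F.passing c hc _ n2 _ n3 y2 hy2 y3 hy3 h).1
    have h1 := hI c (by omega) c hc
    rw [F.geo.self] at h1
    omega
  · have hp := (F.passing c hc _ n3 _ hc4 y3 hy3 y4 hy4 h).1
    have h1 := hIy c hc
    omega

/-- L3, in the form in which it is used: the lift of the displacement -/
theorem upL3' {x y : Z} {R1 b : ℕ}
    (hI : ∀ z, ρ x z + ρ z y = ρ x y → ∀ c ∈ F.V, R1 < ρ z c) (hb : b ≤ R1)
    (hT : 5 * Th ≤ T) {g : G} (hx : ρ x (g • x) ≤ b)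
    (hy : od F y (g • y) ≤ b) : ρ y (g • y) ≤ b := by
  obtain ⟨k, hk, h⟩ := od_spec (F := F) y (g • y)
  have h1 := upL3 hI hb hT hk hx (by omega)
  rw [h1, one_smul] at h
  omega

/-- lifting an element of `G ⧸ K` at a point -/
theorem lift_at (x : Z) (g : G) {b : ℕ} (h : od F x (g • x) ≤ b) :
    ∃ g' : G, (QuotientGroup.mk g' : G ⧸ KA F) = QuotientGroup.mk g ∧ ρ x (g' • x) ≤ b := by
  obtain ⟨k, hk, h1⟩ := od_spec (F := F) x (g • x)
  refine ⟨k * g, ?_, by rw [mul_smul]; omega⟩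
  have : (QuotientGroup.mk k : G ⧸ KA F) = 1 := (QuotientGroup.eq_one_iff k).2 hk
  rw [QuotientGroup.mk_mul, this, one_mul]

/-- lifting an element of `G ⧸ K` along a segment which stays away from the apices -/
theorem lift_seg {x y : Z} {R1 b : ℕ}
    (hI : ∀ z, ρ x z + ρ z y = ρ x y → ∀ c ∈ F.V, R1 < ρ z c) (hb : b ≤ R1)
    (hT : 5 * Th ≤ T) (g' : G ⧸ KA F)
    (hx : qd F (qmk F x) (g' • qmk F x) ≤ b) (hy : qd F (qmk F y) (g' • qmk F y) ≤ b) :
    ∃ g : G, (QuotientGroup.mk g : G ⧸ KA F) = g' ∧ ρ x (g • x) ≤ b ∧ ρ y (g • y) ≤ b := by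
  obtain ⟨g, rfl⟩ := QuotientGroup.mk_surjective g'
  rw [mk_smul_qmk, qd_mk] at hx hy
  obtain ⟨g1, e1, h1⟩ := lift_at x g hx
  refine ⟨g1, e1, h1, upL3' hI hb hT h1 ?_⟩
  have e2 : qmk F (g1 • y) = qmk F (g • y) := by
    rw [← mk_smul_qmk, ← mk_smul_qmk, e1]
  have e3 : od F y (g1 • y) = od F y (g • y) := by
    rw [← qd_mk, ← qd_mk, e2]
  omega

end RotFam

end Burn
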